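import Pool.Agent.W387.R.Stm

/-!
Presentation and Dehn function lower bound for the kernel of a map to a finite group
(Reidemeister and Schreier).
-/

set_option autoImplicit false

namespace Pool.Agent.W387.RAFI

open Pool.Agent.W387.RA

/-- translation action of a group on functions -/
def shiftAut {H : Type} [Group H] {Q : Type} [Group Q] : H →* MulAut (H → Q) where
  toFun h :=
    { toFun := fun f b => f (b * h)
      invFun := fun f b => f (b * h⁻¹)
      left_inv := fun f => by funext b; simp [mul_assoc]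
      right_inv := fun f => by funext b; simp [mul_assoc]
      map_mul' := fun f g => rfl }
  map_one' := by
    ext f b
    simp
  map_mul' := fun h k => by
    ext f b
    simp [mul_assoc]

theorem shiftAut_apply {H : Type} [Group H] {Q : Type} [Group Q] (h : H) (f : H → Q) (b : H) :
    shiftAut h f b = f (b * h) := rfl

section cross

variable {H : Type} [Group H] {X : Type} {Q : Type} [Group Q]

/-- the hom to the wreath product -/
def Lam (b0 : FreeGroup X →* H) (g : H → X → Q) :
    FreeGroup X →* (H → Q) ⋊[shiftAut] H :=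
  FreeGroup.lift (fun x => ⟨fun b => g b x, b0 (FreeGroup.of x)⟩)

theorem Lam_right (b0 : FreeGroup X →* H) (g : H → X → Q) (w : FreeGroup X) :
    (Lam b0 g w).right = b0 w := by
  have h : (SemidirectProduct.rightHom).comp (Lam b0 g) = b0 := by
    apply FreeGroup.ext_hom
    intro x
    simp [Lam]
  exact DFunLike.congr_fun h w

/-- the crossed map -/
def cr (b0 : FreeGroup X →* H) (g : H → X → Q) (w : FreeGroup X) (b : H) : Q :=
  (Lam b0 g w).left b

theorem cr_mul (b0 : FreeGroup X →* H) (g : H → X → Q) (u v : FreeGroup X) (b : H) :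
    cr b0 g (u * v) b = cr b0 g u b * cr b0 g v (b * b0 u) := by
  simp only [cr, map_mul, SemidirectProduct.mul_left, Pi.mul_apply, shiftAut_apply, Lam_right]

theorem cr_of (b0 : FreeGroup X →* H) (g : H → X → Q) (x : X) (b : H) :
    cr b0 g (FreeGroup.of x) b = g b x := by
  simp [cr, Lam]

theorem cr_one (b0 : FreeGroup X →* H) (g : H → X → Q) (b : H) :
    cr b0 g 1 b = 1 := by
  simp [cr]

theorem cr_inv (b0 : FreeGroup X →* H) (g : H → X → Q) (u : FreeGroup X) (b : H) :
    cr b0 g u⁻¹ b = (cr b0 g u (b * (b0 u)⁻¹))⁻¹ := by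
  have h := cr_mul b0 g u u⁻¹ (b * (b0 u)⁻¹)
  rw [mul_inv_cancel, cr_one, inv_mul_cancel_right] at h
  exact eq_inv_of_mul_eq_one_right h.symm

/-- uniqueness of crossed maps -/
theorem cr_uniq (b0 : FreeGroup X →* H) (g : H → X → Q) (D : FreeGroup X → H → Q)
    (hmul : ∀ u v b, D (u * v) b = D u b * D v (b * b0 u))
    (hof : ∀ x b, D (FreeGroup.of x) b = g b x) (w : FreeGroup X) : ∀ b, D w b = cr b0 g w b := by
  have h1 : ∀ b, D 1 b = 1 := by
    intro b
    have h := hmul 1 1 b
    rw [map_one, mul_one, mul_one] at h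
    exact left_eq_mul.mp h
  have hinv : ∀ u, (∀ b, D u b = cr b0 g u b) → ∀ b, D u⁻¹ b = cr b0 g u⁻¹ b := by
    intro u hu b
    have h := hmul u u⁻¹ (b * (b0 u)⁻¹)
    rw [mul_inv_cancel, h1, inv_mul_cancel_right] at h
    rw [cr_inv, ← hu]
    exact eq_inv_of_mul_eq_one_right h.symm
  induction w using FreeGroup.induction_on with
  | C1 => intro b; rw [h1, cr_one]
  | of x => intro b; rw [hof, cr_of]
  | inv_of x hx => exact hinv _ hx
  | mul u v hu hv => intro b; rw [hmul, cr_mul, hu, hv]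

theorem cr_nat {Q' : Type} [Group Q'] (b0 : FreeGroup X →* H) (g : H → X → Q) (θ : Q →* Q')
    (w : FreeGroup X) (b : H) :
    θ (cr b0 g w b) = cr b0 (fun b x => θ (g b x)) w b := by
  refine cr_uniq b0 (fun b x => θ (g b x)) (fun w b => θ (cr b0 g w b)) ?_ ?_ w b
  · intro u v b
    rw [cr_mul, map_mul]
  · intro x b
    rw [cr_of]

theorem cr_conj (b0 : FreeGroup X →* H) (s : H → FreeGroup X) (w : FreeGroup X) (b : H) :
    cr b0 (fun b x => s b * FreeGroup.of x * (s (b * b0 (FreeGroup.of x)))⁻¹) w b =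
      s b * w * (s (b * b0 w))⁻¹ := by
  symm
  refine cr_uniq b0 _ (fun w b => s b * w * (s (b * b0 w))⁻¹) ?_ ?_ w b
  · intro u v b
    simp only [map_mul]
    group
  · intro x b
    rfl

end cross

section main

variable {H : Type} [Group H] {m k : ℕ}

/-- the word of a crossed lift has the same length -/
theorem cr_word (b0 : FreeGroup (Fin m) →* H) (e : H × Fin m ≃ Fin k)
    (L : List (Fin m × Bool)) : ∀ b : H, ∃ L' : List (Fin k × Bool), L'.length = L.length ∧
      cr b0 (fun b x => FreeGroup.of (e (b, x))) (FreeGroup.mk L) b = FreeGroup.mk L' := by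
  induction L with
  | nil =>
    intro b
    refine ⟨[], rfl, ?_⟩
    rw [← FreeGroup.one_eq_mk, ← FreeGroup.one_eq_mk, cr_one]
  | cons p t ih =>
    intro b
    obtain ⟨x, c⟩ := p
    have hsplit : (FreeGroup.mk ((x, c) :: t) : FreeGroup (Fin m)) =
        FreeGroup.mk [(x, c)] * FreeGroup.mk t := by
      rw [FreeGroup.mul_mk]; rfl
    cases c with
    | true =>
      have h1 : (FreeGroup.mk [(x, true)] : FreeGroup (Fin m)) = FreeGroup.of x := rfl
      obtain ⟨t', ht', he⟩ := ih (b * b0 (FreeGroup.of x))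
      refine ⟨(e (b, x), true) :: t', by simp [ht'], ?_⟩
      rw [hsplit, h1, cr_mul, cr_of, he]
      change FreeGroup.mk [(e (b, x), true)] * FreeGroup.mk t' = _
      rw [FreeGroup.mul_mk]
      rfl
    | false =>
      have h1 : (FreeGroup.mk [(x, false)] : FreeGroup (Fin m)) = (FreeGroup.of x)⁻¹ := rfl
      obtain ⟨t', ht', he⟩ := ih (b * b0 (FreeGroup.of x)⁻¹)
      refine ⟨(e (b * (b0 (FreeGroup.of x))⁻¹, x), false) :: t', by simp [ht'], ?_⟩
      rw [hsplit, h1, cr_mul, cr_inv, cr_of, he]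
      change FreeGroup.mk [(e (b * (b0 (FreeGroup.of x))⁻¹, x), false)] * FreeGroup.mk t' = _
      rw [FreeGroup.mul_mk]
      rfl

theorem main_surj (m : ℕ) (rels : Finset (FreeGroup (Fin m))) (hS : SuperExp rels)
    (H : Type) [Group H] [Finite H] (β : PG rels →* H) (hβ : Function.Surjective β) :
    ∃ (m' : ℕ) (rels' : Finset (FreeGroup (Fin m'))),
      Nonempty (PG rels' ≃* β.ker) ∧ SuperExp rels' := by
  classical
  obtain ⟨k, ⟨e⟩⟩ := Finite.exists_equiv_fin (H × Fin m)
  set b0 : FreeGroup (Fin m) →* H := β.comp (pg rels) with hb0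
  have hb0s : Function.Surjective b0 := hβ.comp (QuotientGroup.mk'_surjective _)
  have hex : ∀ b : H, ∃ u : FreeGroup (Fin m), b0 u = b ∧ (b = 1 → u = 1) := by
    intro b
    by_cases hb : b = 1
    · exact ⟨1, by rw [map_one, hb], fun _ => rfl⟩
    · obtain ⟨u, hu⟩ := hb0s b
      exact ⟨u, hu, fun h => absurd h hb⟩
  choose s hs hs1 using hex
  have hs1' : s 1 = 1 := hs1 1 rfl
  have hrel1 : ∀ r ∈ rels, pg rels r = 1 := by
    intro r hr
    exact PresentedGroup.one_of_mem hr
  have hb0r : ∀ r ∈ rels, b0 r = 1 := by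
    intro r hr
    rw [hb0, MonoidHom.comp_apply, hrel1 r hr, map_one]
  -- the new generators
  set g : H → Fin m → FreeGroup (Fin k) := fun b x => FreeGroup.of (e (b, x)) with hg
  -- projection
  set pi : FreeGroup (Fin k) →* FreeGroup (Fin m) :=
    FreeGroup.lift (fun i => s (e.symm i).1 * FreeGroup.of (e.symm i).2 *
      (s ((e.symm i).1 * b0 (FreeGroup.of (e.symm i).2)))⁻¹) with hpi
  have hpig : ∀ b x, pi (g b x) = s b * FreeGroup.of x * (s (b * b0 (FreeGroup.of x)))⁻¹ := by
    intro b x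
    simp [hpi, hg]
  have hpicr : ∀ w b, pi (cr b0 g w b) = s b * w * (s (b * b0 w))⁻¹ := by
    intro w b
    rw [cr_nat]
    simp only [hpig]
    exact cr_conj b0 s w b
  -- the new relators
  have hfin : ((fun p : FreeGroup (Fin m) × H => cr b0 g p.1 p.2) ''
      ((↑rels : Set (FreeGroup (Fin m))) ×ˢ (Set.univ : Set H)) ∪
      Set.range (fun b : H => cr b0 g (s b) 1)).Finite :=
    ((rels.finite_toSet.prod Set.finite_univ).image _).union (Set.finite_range _)
  set rels' : Finset (FreeGroup (Fin k)) := hfin.toFinset with hrels'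
  have hmem : ∀ v, v ∈ rels' ↔ (∃ r ∈ rels, ∃ b : H, v = cr b0 g r b) ∨
      (∃ b : H, v = cr b0 g (s b) 1) := by
    intro v
    rw [hrels', Set.Finite.mem_toFinset, Set.mem_union]
    constructor
    · rintro (⟨⟨r, b⟩, ⟨hr, -⟩, rfl⟩ | ⟨b, rfl⟩)
      · exact Or.inl ⟨r, hr, b, rfl⟩
      · exact Or.inr ⟨b, rfl⟩
    · rintro (⟨r, hr, b, rfl⟩ | ⟨b, rfl⟩)
      · exact Or.inl ⟨(r, b), ⟨hr, Set.mem_univ _⟩, rfl⟩
      · exact Or.inr ⟨b, rfl⟩
  -- values of pi on the relators
  have hpirel1 : ∀ r ∈ rels, ∀ b, pi (cr b0 g r b) = s b * r * (s b)⁻¹ := by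
    intro r hr b
    rw [hpicr, hb0r r hr, mul_one]
  have hpirel2 : ∀ b, pi (cr b0 g (s b) 1) = 1 := by
    intro b
    rw [hpicr, hs, hs1', one_mul, one_mul, mul_inv_cancel]
  -- the quotient
  set gb : H → Fin m → PG rels' := fun b x => pg rels' (g b x) with hgb
  have hcrb : ∀ w b, pg rels' (cr b0 g w b) = cr b0 gb w b := by
    intro w b
    rw [cr_nat]
  have hgbr : ∀ r ∈ rels, ∀ b, cr b0 gb r b = 1 := by
    intro r hr b
    rw [← hcrb]
    exact PresentedGroup.one_of_mem (Finset.mem_coe.mpr ((hmem _).mpr (Or.inl ⟨r, hr, b, rfl⟩)))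
  have hgbs : ∀ b, cr b0 gb (s b) 1 = 1 := by
    intro b
    rw [← hcrb]
    exact PresentedGroup.one_of_mem (Finset.mem_coe.mpr ((hmem _).mpr (Or.inr ⟨b, rfl⟩)))
  -- the map from the new group
  have hker : ∀ v : FreeGroup (Fin k), pg rels (pi v) ∈ β.ker := by
    intro v
    rw [MonoidHom.mem_ker]
    have h : (β.comp ((pg rels).comp pi)) = 1 := by
      apply FreeGroup.ext_hom
      intro i
      obtain ⟨⟨b, x⟩, rfl⟩ := e.surjective i
      change b0 (pi (g b x)) = 1
      rw [hpig, map_mul, map_mul, map_inv, hs, hs, mul_inv_cancel]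
    exact DFunLike.congr_fun h v
  set κ : FreeGroup (Fin k) →* β.ker := ((pg rels).comp pi).codRestrict β.ker hker with hκ
  have hκrel : ∀ v ∈ rels', κ v = 1 := by
    intro v hv
    apply Subtype.ext
    change pg rels (pi v) = 1
    rcases (hmem v).mp hv with ⟨r, hr, b, rfl⟩ | ⟨b, rfl⟩
    · rw [hpirel1 r hr, map_mul, map_mul, hrel1 r hr, mul_one, map_inv, mul_inv_cancel]
    · rw [hpirel2, map_one]
  have hκle : Subgroup.normalClosure (↑rels' : Set (FreeGroup (Fin k))) ≤ κ.ker := by
    apply Subgroup.normalClosure_le_normal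
    intro v hv
    exact hκrel v hv
  set Φ : PG rels' →* β.ker := QuotientGroup.lift _ κ hκle with hΦ
  have hΦmk : ∀ v, Φ (pg rels' v) = κ v := fun v => rfl
  -- the map from the old group
  have hLamrel : ∀ r ∈ rels, Lam b0 gb r = 1 := by
    intro r hr
    apply SemidirectProduct.ext
    · funext b
      exact hgbr r hr b
    · rw [Lam_right, hb0r r hr]; rfl
  have hLamle : Subgroup.normalClosure (↑rels : Set (FreeGroup (Fin m))) ≤ (Lam b0 gb).ker := by
    apply Subgroup.normalClosure_le_normal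
    intro r hr
    exact hLamrel r hr
  set Λ : PG rels →* (H → PG rels') ⋊[shiftAut] H := QuotientGroup.lift _ (Lam b0 gb) hLamle
    with hΛ
  have hΛmk : ∀ w, Λ (pg rels w) = Lam b0 gb w := fun w => rfl
  have hΛright : ∀ p, (Λ p).right = β p := by
    intro p
    obtain ⟨w, rfl⟩ := QuotientGroup.mk'_surjective _ p
    change (Lam b0 gb w).right = b0 w
    rw [Lam_right]
  set Ψ : β.ker →* PG rels' :=
    { toFun := fun p => (Λ p.1).left 1
      map_one' := by simp
      map_mul' := fun p q => by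
        have hp : β p.1 = 1 := p.2
        simp only [Subgroup.coe_mul, map_mul, SemidirectProduct.mul_left, Pi.mul_apply,
          shiftAut_apply, hΛright, hp, mul_one] } with hΨ
  have hΨmk : ∀ (w : FreeGroup (Fin m)) (hw : pg rels w ∈ β.ker),
      Ψ ⟨pg rels w, hw⟩ = cr b0 gb w 1 := fun w hw => rfl
  have hΦΨ : ∀ p, Φ (Ψ p) = p := by
    rintro ⟨p, hp⟩
    obtain ⟨w, rfl⟩ := QuotientGroup.mk'_surjective _ p
    have hw : b0 w = 1 := hp
    change Φ (Ψ ⟨pg rels w, hp⟩) = ⟨pg rels w, hp⟩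
    rw [hΨmk w hp, ← hcrb, hΦmk]
    apply Subtype.ext
    change pg rels (pi (cr b0 g w 1)) = pg rels w
    rw [hpicr, hw, mul_one, hs1', one_mul, inv_one, mul_one]
  have hΨΦ : ∀ q, Ψ (Φ q) = q := by
    intro q
    have h : Ψ.comp Φ = MonoidHom.id _ := by
      apply PresentedGroup.ext
      intro i
      obtain ⟨⟨b, x⟩, rfl⟩ := e.surjective i
      change Ψ (Φ (pg rels' (g b x))) = pg rels' (g b x)
      rw [hΦmk]
      have h1 : κ (g b x) = ⟨pg rels (pi (g b x)), hker _⟩ := rfl
      rw [h1, hΨmk, hpig, cr_mul, cr_mul, hgbs, one_mul, cr_of, cr_inv, map_mul, hs, hs,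
        one_mul, one_mul, mul_inv_cancel, hgbs, inv_one, mul_one]
    exact DFunLike.congr_fun h q
  refine ⟨k, rels', ⟨⟨⟨Φ, Ψ, hΨΦ, hΦΨ⟩, Φ.map_mul⟩⟩, ?_⟩
  -- the lower bound
  intro C
  obtain ⟨n, w, ⟨L, hLn, hLw⟩, hwN, hlow⟩ := hS C
  have hw1 : pg rels w = 1 := (QuotientGroup.eq_one_iff w).mpr hwN
  have hb0w : b0 w = 1 := by rw [hb0, MonoidHom.comp_apply, hw1, map_one]
  have hpiw : pi (cr b0 g w 1) = w := by
    rw [hpicr, hb0w, mul_one, hs1', one_mul, inv_one, mul_one]
  refine ⟨n, cr b0 g w 1, ?_, ?_, ?_⟩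
  · obtain ⟨L', hL', he⟩ := cr_word b0 e L 1
    exact ⟨L', hL' ▸ hLn, by rw [hLw]; exact he⟩
  · apply (QuotientGroup.eq_one_iff (cr b0 g w 1)).mp
    change pg rels' (cr b0 g w 1) = 1
    rw [hcrb]
    change (Λ (pg rels w)).left 1 = 1
    rw [hw1, map_one]
    rfl
  · intro l' hl' hw'
    have key : ∀ l' : List (FreeGroup (Fin k) × FreeGroup (Fin k)),
        (∀ p, p ∈ l' → (p.2 ∈ rels' ∨ p.2⁻¹ ∈ rels')) →
        ∃ l : List (FreeGroup (Fin m) × FreeGroup (Fin m)), l.length ≤ l'.length ∧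
          (∀ p, p ∈ l → (p.2 ∈ rels ∨ p.2⁻¹ ∈ rels)) ∧
          pi (l'.map (fun p => p.1 * p.2 * p.1⁻¹)).prod =
            (l.map (fun p => p.1 * p.2 * p.1⁻¹)).prod := by
      intro l'
      induction l' with
      | nil => intro _; exact ⟨[], le_rfl, by simp, by simp⟩
      | cons p t ih =>
        intro hp
        obtain ⟨l, hl1, hl2, hl3⟩ := ih (fun q hq => hp q (List.mem_cons_of_mem _ hq))
        have hp2 := hp p List.mem_cons_self
        have hcase : pi p.2 = 1 ∨ ∃ b : H, ∃ r : FreeGroup (Fin m), (r ∈ rels ∨ r⁻¹ ∈ rels) ∧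
            pi p.2 = s b * r * (s b)⁻¹ := by
          rcases hp2 with h | h
          · rcases (hmem _).mp h with ⟨r, hr, b, hb⟩ | ⟨b, hb⟩
            · right
              exact ⟨b, r, Or.inl hr, by rw [hb, hpirel1 r hr]⟩
            · left; rw [hb, hpirel2]
          · rcases (hmem _).mp h with ⟨r, hr, b, hb⟩ | ⟨b, hb⟩
            · right
              refine ⟨b, r⁻¹, Or.inr (by rwa [inv_inv]), ?_⟩
              have h2 : pi (p.2⁻¹) = s b * r * (s b)⁻¹ := by rw [hb, hpirel1 r hr]
              rw [map_inv] at h2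
              rw [← inv_inv (pi p.2), h2]
              group
            · left
              have h2 : pi (p.2⁻¹) = 1 := by rw [hb, hpirel2]
              rw [map_inv] at h2
              exact inv_eq_one.mp h2
        rcases hcase with h1 | ⟨b, r, hr, h1⟩
        · refine ⟨l, le_trans hl1 (by simp), hl2, ?_⟩
          rw [List.map_cons, List.prod_cons, map_mul, hl3, map_mul, map_mul, h1, mul_one,
            map_inv, mul_inv_cancel, one_mul]
        · refine ⟨(pi p.1 * s b, r) :: l, by simpa using hl1, ?_, ?_⟩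
          · intro q hq
            rcases List.mem_cons.mp hq with rfl | hq
            · exact hr
            · exact hl2 q hq
          · rw [List.map_cons, List.prod_cons, map_mul, hl3, map_mul, map_mul, h1,
              List.map_cons, List.prod_cons, map_inv]
            congr 1
            simp only
            group
    obtain ⟨l, hl1, hl2, hl3⟩ := key l' hl'
    refine lt_of_lt_of_le (hlow l hl2 ?_) hl1
    rw [← hl3, ← hw', hpiw]

theorem stmFI : StmFI := by
  intro m rels hS B _ _ β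
  obtain ⟨m', rels', ⟨E⟩, hS'⟩ := main_surj m rels hS β.range β.rangeRestrict
    β.rangeRestrict_surjective
  exact ⟨m', rels', ⟨E.trans (MulEquiv.subgroupCongr (MonoidHom.ker_rangeRestrict β))⟩, hS'⟩

end main

end Pool.Agent.W387.RAFI
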