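import Pool.Agent.W387.R.Emb
import Pool.Agent.W387.R.FIc
import Pool.Agent.W73.RA.LB
import Pool.Agent.W366.RA.Gr

/-!
Strong forms of the lower bounds.
-/

set_option autoImplicit false

namespace Pool.Agent.W387.RA

/-- some relation of length at most `n` is not a product of at most `A` conjugates of relators -/
def HardAt {m : ℕ} (rels : Finset (FreeGroup (Fin m))) (n A : ℕ) : Prop :=
  ∃ w : FreeGroup (Fin m),
    (∃ L : List (Fin m × Bool), L.length ≤ n ∧ w = FreeGroup.mk L) ∧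
    w ∈ Subgroup.normalClosure (↑rels : Set (FreeGroup (Fin m))) ∧
    ∀ l : List (FreeGroup (Fin m) × FreeGroup (Fin m)),
      (∀ p : FreeGroup (Fin m) × FreeGroup (Fin m), p ∈ l → (p.2 ∈ rels ∨ p.2⁻¹ ∈ rels)) →
      w = (l.map (fun p : FreeGroup (Fin m) × FreeGroup (Fin m) => p.1 * p.2 * p.1⁻¹)).prod →
      A < l.length

section FI

open Pool.Agent.W387.RAFI

theorem main_surj2 (m : ℕ) (rels : Finset (FreeGroup (Fin m)))
    (H : Type) [Group H] [Finite H] (β : PG rels →* H) (hβ : Function.Surjective β) :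
    ∃ (m' : ℕ) (rels' : Finset (FreeGroup (Fin m'))),
      Nonempty (PG rels' ≃* β.ker) ∧ ∀ n A : ℕ, HardAt rels n A → HardAt rels' n A := by
  classical
  obtain ⟨k, ⟨e⟩⟩ := Finite.exists_equiv_fin (H × Fin m)
  set b0 : FreeGroup (Fin m) →* H := β.comp (pg rels) with hb0
  have hb0s : Function.Surjective b0 := hβ.comp (QuotientGroup.mk'_surjective _)
  have hex : ∀ b : H, ∃ u : FreeGroup (Fin m), b0 u = b ∧ (b = 1 → u = 1) := by
    intro b
    by_cases hb : b = 1
    · exact ⟨1, by rw [map_one, hb], fun _ => rfl⟩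
    · obtain ⟨u, hu⟩ := hb0s b
      exact ⟨u, hu, fun h => absurd h hb⟩
  choose s hs hs1 using hex
  have hs1' : s 1 = 1 := hs1 1 rfl
  have hrel1 : ∀ r ∈ rels, pg rels r = 1 := by
    intro r hr
    exact PresentedGroup.one_of_mem hr
  have hb0r : ∀ r ∈ rels, b0 r = 1 := by
    intro r hr
    rw [hb0, MonoidHom.comp_apply, hrel1 r hr, map_one]
  -- the new generators
  set g : H → Fin m → FreeGroup (Fin k) := fun b x => FreeGroup.of (e (b, x)) with hg
  -- projection
  set pi : FreeGroup (Fin k) →* FreeGroup (Fin m) :=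
    FreeGroup.lift (fun i => s (e.symm i).1 * FreeGroup.of (e.symm i).2 *
      (s ((e.symm i).1 * b0 (FreeGroup.of (e.symm i).2)))⁻¹) with hpi
  have hpig : ∀ b x, pi (g b x) = s b * FreeGroup.of x * (s (b * b0 (FreeGroup.of x)))⁻¹ := by
    intro b x
    simp [hpi, hg]
  have hpicr : ∀ w b, pi (cr b0 g w b) = s b * w * (s (b * b0 w))⁻¹ := by
    intro w b
    rw [cr_nat]
    simp only [hpig]
    exact cr_conj b0 s w b
  -- the new relators
  have hfin : ((fun p : FreeGroup (Fin m) × H => cr b0 g p.1 p.2) ''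
      ((↑rels : Set (FreeGroup (Fin m))) ×ˢ (Set.univ : Set H)) ∪
      Set.range (fun b : H => cr b0 g (s b) 1)).Finite :=
    ((rels.finite_toSet.prod Set.finite_univ).image _).union (Set.finite_range _)
  set rels' : Finset (FreeGroup (Fin k)) := hfin.toFinset with hrels'
  have hmem : ∀ v, v ∈ rels' ↔ (∃ r ∈ rels, ∃ b : H, v = cr b0 g r b) ∨
      (∃ b : H, v = cr b0 g (s b) 1) := by
    intro v
    rw [hrels', Set.Finite.mem_toFinset, Set.mem_union]
    constructor
    · rintro (⟨⟨r, b⟩, ⟨hr, -⟩, rfl⟩ | ⟨b, rfl⟩)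
      · exact Or.inl ⟨r, hr, b, rfl⟩
      · exact Or.inr ⟨b, rfl⟩
    · rintro (⟨r, hr, b, rfl⟩ | ⟨b, rfl⟩)
      · exact Or.inl ⟨(r, b), ⟨hr, Set.mem_univ _⟩, rfl⟩
      · exact Or.inr ⟨b, rfl⟩
  -- values of pi on the relators
  have hpirel1 : ∀ r ∈ rels, ∀ b, pi (cr b0 g r b) = s b * r * (s b)⁻¹ := by
    intro r hr b
    rw [hpicr, hb0r r hr, mul_one]
  have hpirel2 : ∀ b, pi (cr b0 g (s b) 1) = 1 := by
    intro b
    rw [hpicr, hs, hs1', one_mul, one_mul, mul_inv_cancel]
  -- the quotient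
  set gb : H → Fin m → PG rels' := fun b x => pg rels' (g b x) with hgb
  have hcrb : ∀ w b, pg rels' (cr b0 g w b) = cr b0 gb w b := by
    intro w b
    rw [cr_nat]
  have hgbr : ∀ r ∈ rels, ∀ b, cr b0 gb r b = 1 := by
    intro r hr b
    rw [← hcrb]
    exact PresentedGroup.one_of_mem (Finset.mem_coe.mpr ((hmem _).mpr (Or.inl ⟨r, hr, b, rfl⟩)))
  have hgbs : ∀ b, cr b0 gb (s b) 1 = 1 := by
    intro b
    rw [← hcrb]
    exact PresentedGroup.one_of_mem (Finset.mem_coe.mpr ((hmem _).mpr (Or.inr ⟨b, rfl⟩)))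
  -- the map from the new group
  have hker : ∀ v : FreeGroup (Fin k), pg rels (pi v) ∈ β.ker := by
    intro v
    rw [MonoidHom.mem_ker]
    have h : (β.comp ((pg rels).comp pi)) = 1 := by
      apply FreeGroup.ext_hom
      intro i
      obtain ⟨⟨b, x⟩, rfl⟩ := e.surjective i
      change b0 (pi (g b x)) = 1
      rw [hpig, map_mul, map_mul, map_inv, hs, hs, mul_inv_cancel]
    exact DFunLike.congr_fun h v
  set κ : FreeGroup (Fin k) →* β.ker := ((pg rels).comp pi).codRestrict β.ker hker with hκ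
  have hκrel : ∀ v ∈ rels', κ v = 1 := by
    intro v hv
    apply Subtype.ext
    change pg rels (pi v) = 1
    rcases (hmem v).mp hv with ⟨r, hr, b, rfl⟩ | ⟨b, rfl⟩
    · rw [hpirel1 r hr, map_mul, map_mul, hrel1 r hr, mul_one, map_inv, mul_inv_cancel]
    · rw [hpirel2, map_one]
  have hκle : Subgroup.normalClosure (↑rels' : Set (FreeGroup (Fin k))) ≤ κ.ker := by
    apply Subgroup.normalClosure_le_normal
    intro v hv
    exact hκrel v hv
  set Φ : PG rels' →* β.ker := QuotientGroup.lift _ κ hκle with hΦ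
  have hΦmk : ∀ v, Φ (pg rels' v) = κ v := fun v => rfl
  -- the map from the old group
  have hLamrel : ∀ r ∈ rels, Lam b0 gb r = 1 := by
    intro r hr
    apply SemidirectProduct.ext
    · funext b
      exact hgbr r hr b
    · rw [Lam_right, hb0r r hr]; rfl
  have hLamle : Subgroup.normalClosure (↑rels : Set (FreeGroup (Fin m))) ≤ (Lam b0 gb).ker := by
    apply Subgroup.normalClosure_le_normal
    intro r hr
    exact hLamrel r hr
  set Λ : PG rels →* (H → PG rels') ⋊[shiftAut] H := QuotientGroup.lift _ (Lam b0 gb) hLamle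
    with hΛ
  have hΛmk : ∀ w, Λ (pg rels w) = Lam b0 gb w := fun w => rfl
  have hΛright : ∀ p, (Λ p).right = β p := by
    intro p
    obtain ⟨w, rfl⟩ := QuotientGroup.mk'_surjective _ p
    change (Lam b0 gb w).right = b0 w
    rw [Lam_right]
  set Ψ : β.ker →* PG rels' :=
    { toFun := fun p => (Λ p.1).left 1
      map_one' := by simp
      map_mul' := fun p q => by
        have hp : β p.1 = 1 := p.2
        simp only [Subgroup.coe_mul, map_mul, SemidirectProduct.mul_left, Pi.mul_apply,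
          shiftAut_apply, hΛright, hp, mul_one] } with hΨ
  have hΨmk : ∀ (w : FreeGroup (Fin m)) (hw : pg rels w ∈ β.ker),
      Ψ ⟨pg rels w, hw⟩ = cr b0 gb w 1 := fun w hw => rfl
  have hΦΨ : ∀ p, Φ (Ψ p) = p := by
    rintro ⟨p, hp⟩
    obtain ⟨w, rfl⟩ := QuotientGroup.mk'_surjective _ p
    have hw : b0 w = 1 := hp
    change Φ (Ψ ⟨pg rels w, hp⟩) = ⟨pg rels w, hp⟩
    rw [hΨmk w hp, ← hcrb, hΦmk]
    apply Subtype.ext
    change pg rels (pi (cr b0 g w 1)) = pg rels w
    rw [hpicr, hw, mul_one, hs1', one_mul, inv_one, mul_one]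
  have hΨΦ : ∀ q, Ψ (Φ q) = q := by
    intro q
    have h : Ψ.comp Φ = MonoidHom.id _ := by
      apply PresentedGroup.ext
      intro i
      obtain ⟨⟨b, x⟩, rfl⟩ := e.surjective i
      change Ψ (Φ (pg rels' (g b x))) = pg rels' (g b x)
      rw [hΦmk]
      have h1 : κ (g b x) = ⟨pg rels (pi (g b x)), hker _⟩ := rfl
      rw [h1, hΨmk, hpig, cr_mul, cr_mul, hgbs, one_mul, cr_of, cr_inv, map_mul, hs, hs,
        one_mul, one_mul, mul_inv_cancel, hgbs, inv_one, mul_one]
    exact DFunLike.congr_fun h q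
  refine ⟨k, rels', ⟨⟨⟨Φ, Ψ, hΨΦ, hΦΨ⟩, Φ.map_mul⟩⟩, ?_⟩
  -- the lower bound
  intro n A
  rintro ⟨w, ⟨L, hLn, hLw⟩, hwN, hlow⟩
  have hw1 : pg rels w = 1 := (QuotientGroup.eq_one_iff w).mpr hwN
  have hb0w : b0 w = 1 := by rw [hb0, MonoidHom.comp_apply, hw1, map_one]
  have hpiw : pi (cr b0 g w 1) = w := by
    rw [hpicr, hb0w, mul_one, hs1', one_mul, inv_one, mul_one]
  refine ⟨cr b0 g w 1, ?_, ?_, ?_⟩
  · obtain ⟨L', hL', he⟩ := cr_word b0 e L 1
    exact ⟨L', hL' ▸ hLn, by rw [hLw]; exact he⟩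
  · apply (QuotientGroup.eq_one_iff (cr b0 g w 1)).mp
    change pg rels' (cr b0 g w 1) = 1
    rw [hcrb]
    change (Λ (pg rels w)).left 1 = 1
    rw [hw1, map_one]
    rfl
  · intro l' hl' hw'
    have key : ∀ l' : List (FreeGroup (Fin k) × FreeGroup (Fin k)),
        (∀ p, p ∈ l' → (p.2 ∈ rels' ∨ p.2⁻¹ ∈ rels')) →
        ∃ l : List (FreeGroup (Fin m) × FreeGroup (Fin m)), l.length ≤ l'.length ∧
          (∀ p, p ∈ l → (p.2 ∈ rels ∨ p.2⁻¹ ∈ rels)) ∧
          pi (l'.map (fun p => p.1 * p.2 * p.1⁻¹)).prod =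
            (l.map (fun p => p.1 * p.2 * p.1⁻¹)).prod := by
      intro l'
      induction l' with
      | nil => intro _; exact ⟨[], le_rfl, by simp, by simp⟩
      | cons p t ih =>
        intro hp
        obtain ⟨l, hl1, hl2, hl3⟩ := ih (fun q hq => hp q (List.mem_cons_of_mem _ hq))
        have hp2 := hp p List.mem_cons_self
        have hcase : pi p.2 = 1 ∨ ∃ b : H, ∃ r : FreeGroup (Fin m), (r ∈ rels ∨ r⁻¹ ∈ rels) ∧
            pi p.2 = s b * r * (s b)⁻¹ := by
          rcases hp2 with h | h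
          · rcases (hmem _).mp h with ⟨r, hr, b, hb⟩ | ⟨b, hb⟩
            · right
              exact ⟨b, r, Or.inl hr, by rw [hb, hpirel1 r hr]⟩
            · left; rw [hb, hpirel2]
          · rcases (hmem _).mp h with ⟨r, hr, b, hb⟩ | ⟨b, hb⟩
            · right
              refine ⟨b, r⁻¹, Or.inr (by rwa [inv_inv]), ?_⟩
              have h2 : pi (p.2⁻¹) = s b * r * (s b)⁻¹ := by rw [hb, hpirel1 r hr]
              rw [map_inv] at h2
              rw [← inv_inv (pi p.2), h2]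
              group
            · left
              have h2 : pi (p.2⁻¹) = 1 := by rw [hb, hpirel2]
              rw [map_inv] at h2
              exact inv_eq_one.mp h2
        rcases hcase with h1 | ⟨b, r, hr, h1⟩
        · refine ⟨l, le_trans hl1 (by simp), hl2, ?_⟩
          rw [List.map_cons, List.prod_cons, map_mul, hl3, map_mul, map_mul, h1, mul_one,
            map_inv, mul_inv_cancel, one_mul]
        · refine ⟨(pi p.1 * s b, r) :: l, by simpa using hl1, ?_, ?_⟩
          · intro q hq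
            rcases List.mem_cons.mp hq with rfl | hq
            · exact hr
            · exact hl2 q hq
          · rw [List.map_cons, List.prod_cons, map_mul, hl3, map_mul, map_mul, h1,
              List.map_cons, List.prod_cons, map_inv]
            congr 1
            simp only
            group
    obtain ⟨l, hl1, hl2, hl3⟩ := key l' hl'
    refine lt_of_lt_of_le (hlow l hl2 ?_) hl1
    rw [← hl3, ← hw', hpiw]


theorem FI2 (m : ℕ) (rels : Finset (FreeGroup (Fin m))) (H : Type) [Group H] [Finite H]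
    (β : PG rels →* H) :
    ∃ (m' : ℕ) (rels' : Finset (FreeGroup (Fin m'))),
      Nonempty (PG rels' ≃* β.ker) ∧ ∀ n A : ℕ, HardAt rels n A → HardAt rels' n A := by
  obtain ⟨m', rels', ⟨E⟩, hS'⟩ := main_surj2 m rels β.range β.rangeRestrict
    β.rangeRestrict_surjective
  exact ⟨m', rels', ⟨E.trans (MulEquiv.subgroupCongr (MonoidHom.ker_rangeRestrict β))⟩, hS'⟩

end FI

section LB

open Pool.Agent.W73.RA

theorem LB2 {m : ℕ} (rels Ns : Finset (FreeGroup (Fin m))) (f : PG rels → ℝ) (c : ℝ)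
    (hf : ∀ n ∈ Ns, ∀ x : PG rels, |f x - f ((pg rels n)⁻¹ * x)| ≤ c)
    (L : List (Fin m × Bool)) (hL1 : pg rels (FreeGroup.mk L) ∈ subN rels Ns) (A : ℕ)
    (hL2 : |c| * (A : ℝ) < |f 1 - f (pg rels (FreeGroup.mk L))⁻¹|) :
    HardAt (relsT rels Ns) (2 * L.length + 2) A := by
  refine ⟨sigma * liftF (FreeGroup.mk L) * sigma⁻¹ * (liftF (FreeGroup.mk L))⁻¹, ?_,
    comm_mem rels Ns _ hL1, ?_⟩
  · refine ⟨[(Fin.last m, true)] ++ L.map (fun x => (Fin.castSucc x.1, x.2)) ++
      FreeGroup.invRev [(Fin.last m, true)] ++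
      FreeGroup.invRev (L.map (fun x => (Fin.castSucc x.1, x.2))), ?_, ?_⟩
    · simp only [List.length_append, FreeGroup.invRev_length, List.length_map, List.length_cons,
        List.length_nil]
      omega
    · rw [← FreeGroup.mul_mk, ← FreeGroup.mul_mk, ← FreeGroup.mul_mk, ← FreeGroup.inv_mk,
        ← FreeGroup.inv_mk]
      rfl
  · intro l hl hprod
    by_contra hlt
    push Not at hlt
    obtain ⟨e, he, h4⟩ := act_prod rels Ns f c hf l hl
    have h5 := h4 0
    rw [← hprod, act_comm rels (act_liftF rels (FreeGroup.mk L))] at h5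
    have h6 : f 1 - f (pg rels (FreeGroup.mk L))⁻¹ = e := by
      have := congrArg Prod.snd h5
      simpa using this
    rw [h6] at hL2
    have h7 : (l.length : ℝ) ≤ A := by exact_mod_cast hlt
    have h8 : |c| * (l.length : ℝ) ≤ |c| * A := mul_le_mul_of_nonneg_left h7 (abs_nonneg c)
    linarith

end LB

section Gr

open Pool.Agent.W366.RA

theorem Gr2 (h1 : StmF1b) (h2 : StmF2) : ∃ f : G → ℝ,
    (∀ n ∈ NsF, ∀ x : G, |f x - f ((pg relF n)⁻¹ * x)| ≤ 1) ∧
    ∀ n : ℕ, ∃ L : List (Lt × Bool), L.length ≤ 16 * n + 1 ∧ pg relF (FreeGroup.mk L) ∈ N ∧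
      (2 : ℝ) ^ ee n ≤ |f 1 - f (pg relF (FreeGroup.mk L))⁻¹| := by
  refine ⟨ff, fun n hn x => ff_diff hn x, fun n => ?_⟩
  refine ⟨(gF n).toWord, norm_gF n, ?_, ?_⟩
  · rw [FreeGroup.mk_toWord]
    exact gG_mem h1 h2 n
  · rw [FreeGroup.mk_toWord]
    have hff : ff (pg relF (gF n))⁻¹ = (((Om n 0 (1, 0)).1 + (Om n 0 (1, 0)).2 : ℤ) : ℝ) := by
      unfold ff
      rw [if_pos (inv_mem (gG_mem h1 h2 n)), inv_inv, Psi_g]
    obtain ⟨k1, k2, k3⟩ := Om_grow n (1, 0) (by norm_num) le_rfl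
    have hbig : (2 : ℝ) ^ ee n ≤ (((Om n 0 (1, 0)).1 + (Om n 0 (1, 0)).2 : ℤ) : ℝ) := by
      have : (2 : ℤ) ^ ee n ≤ (Om n 0 (1, 0)).1 + (Om n 0 (1, 0)).2 := by
        simpa using k3
      exact_mod_cast this
    rw [hff, ff_one, zero_sub, abs_neg]
    exact hbig.trans (le_abs_self _)

/-- the trivial HNN extension has a large Dehn function -/
theorem hardT (h1 : StmF1b) (h2 : StmF2) (n : ℕ) :
    HardAt (relsT relF NsF) (32 * n + 4) (2 ^ ee n - 1) := by
  obtain ⟨f, hf, hg⟩ := Gr2 h1 h2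
  obtain ⟨L, hL, hN, hgr⟩ := hg n
  have h3 : |(1 : ℝ)| * ((2 ^ ee n - 1 : ℕ) : ℝ) < |f 1 - f (pg relF (FreeGroup.mk L))⁻¹| := by
    refine lt_of_lt_of_le ?_ hgr
    rw [abs_one, one_mul]
    have : 2 ^ ee n - 1 < 2 ^ ee n := Nat.sub_lt (by positivity) one_pos
    exact_mod_cast this
  obtain ⟨w, ⟨L', hL', hw⟩, h4, h5⟩ := LB2 relF NsF f 1 hf L hN (2 ^ ee n - 1) h3
  exact ⟨w, ⟨L', by omega, hw⟩, h4, h5⟩

end Gr

/-- the main result, from the statements -/
theorem main_of (hperm : StmPerm) (hact : StmAct) (h1a : StmF1a) (h1b : StmF1b) (h2 : StmF2)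
    (h3 : StmF3) (h4 : StmF4) (hnf : StmNF) (hth : StmTH) :
    ∃ k : ℕ, ∃ Γ : SimpleGraph (Fin k), ∃ H : Subgroup (RAAG Γ), ∃ m : ℕ,
      ∃ rels : Finset (FreeGroup (Fin m)),
        Nonempty (PresentedGroup (↑rels : Set (FreeGroup (Fin m))) ≃* ↥H) ∧
        ∀ n : ℕ, HardAt rels (32 * n + 4) (2 ^ (n * (n + 1) / 2) - 1) := by
  classical
  obtain ⟨φ, Ψ, hΨ⟩ := emb hact hperm h1a h1b h2 h3 h4 hnf
  obtain ⟨E⟩ := hth 36 relF NsF
  set β : PG (relsT relF NsF) →* Multiplicative Bz :=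
    (SemidirectProduct.rightHom.comp Ψ).comp E.toMonoidHom with hβ
  obtain ⟨m', rels', ⟨I⟩, hh⟩ := FI2 37 (relsT relF NsF) (Multiplicative Bz) β
  -- the map of the kernel to the right-angled Artin group
  have hright : ∀ x : β.ker, (Ψ (E x.1)).right = 1 := fun x => x.2
  let j1 : β.ker →* D :=
    { toFun := fun x => (Ψ (E x.1)).left
      map_one' := by simp
      map_mul' := fun x y => by
        rw [Subgroup.coe_mul, map_mul, map_mul, SemidirectProduct.mul_left, hright x, map_one]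
        rfl }
  have hj1 : Function.Injective j1 := by
    intro x y hxy
    apply Subtype.ext
    apply E.injective
    apply hΨ
    apply SemidirectProduct.ext
    · exact hxy
    · rw [hright x, hright y]
  -- relabelling
  have : Finite Bz := inferInstance
  have : ∀ j : Fin 8, Finite (Bz ⧸ Kj j) := fun j => inferInstance
  have : Finite (Bz ⧸ KT) := inferInstance
  have : Finite Vc := inferInstance
  have : Finite Vx := inferInstance
  obtain ⟨k, ⟨ε⟩⟩ := Finite.exists_equiv_fin Vx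
  let Γ : SimpleGraph (Fin k) := Gx.comap ε.symm
  let j2 : D →* RAAG Γ := PresentedGroup.toGroup
    (f := fun v => (PresentedGroup.of (ε v) : RAAG Γ)) (by
      rintro r ⟨a, b, h, rfl⟩
      have h1 : Γ.Adj (ε a) (ε b) := by
        show Gx.Adj (ε.symm (ε a)) (ε.symm (ε b))
        rw [Equiv.symm_apply_apply, Equiv.symm_apply_apply]
        exact h
      have h2 := comm_of_adj h1
      simp only [map_mul, map_inv, FreeGroup.lift_apply_of]
      rw [h2.eq]
      group)
  let j3 : RAAG Γ →* D := PresentedGroup.toGroup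
    (f := fun v => (PresentedGroup.of (ε.symm v) : D)) (by
      rintro r ⟨a, b, h, rfl⟩
      have h1 : Gx.Adj (ε.symm a) (ε.symm b) := h
      have h2 := comm_of_adj h1
      simp only [map_mul, map_inv, FreeGroup.lift_apply_of]
      rw [h2.eq]
      group)
  have h32 : ∀ x, j3 (j2 x) = x := by
    intro x
    have : j3.comp j2 = MonoidHom.id D := by
      apply PresentedGroup.ext
      intro v
      show j3 (j2 (PresentedGroup.of v)) = PresentedGroup.of v
      have e1 : j2 (PresentedGroup.of v) = PresentedGroup.of (ε v) := PresentedGroup.toGroup.of _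
      have e2 : j3 (PresentedGroup.of (ε v)) = PresentedGroup.of (ε.symm (ε v)) :=
        PresentedGroup.toGroup.of _
      rw [e1, e2, Equiv.symm_apply_apply]
    exact DFunLike.congr_fun this x
  have hj2 : Function.Injective j2 := Function.LeftInverse.injective h32
  let j : β.ker →* RAAG Γ := j2.comp j1
  have hj : Function.Injective j := hj2.comp hj1
  refine ⟨k, Γ, j.range, m', rels', ⟨I.trans (MonoidHom.ofInjective hj)⟩, fun n => ?_⟩
  have h5 := hh _ _ (hardT h1b h2 n)
  have h6 : Pool.Agent.W366.RA.ee n = n * (n + 1) / 2 := by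
    have := Pool.Agent.W366.RA.ee_eq n
    omega
  rw [h6] at h5
  exact h5

end Pool.Agent.W387.RA
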