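import Mathlib
import Pool.Agent.W387.TH

/-!
Statements for the construction of a finitely presented subgroup of a right-angled Artin group
with superexponential Dehn function.
-/

set_option autoImplicit false

namespace Pool.Agent.W387.RA

open Pool.Agent.W387

/-! ### Generic definitions -/

/-- the commutation relators of a graph -/
def raagRels {α : Type} (Γ : SimpleGraph α) : Set (FreeGroup α) :=
  {r | ∃ a : α, ∃ b : α, Γ.Adj a b ∧
    r = FreeGroup.of a * FreeGroup.of b * (FreeGroup.of a)⁻¹ * (FreeGroup.of b)⁻¹}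

/-- right-angled Artin groups -/
abbrev RAAG {α : Type} (Γ : SimpleGraph α) : Type := PresentedGroup (raagRels Γ)

/-- the Dehn function of a finite presentation is not bounded by an exponential -/
def SuperExp {m : ℕ} (rels : Finset (FreeGroup (Fin m))) : Prop :=
  ∀ C : ℕ, ∃ n : ℕ, ∃ w : FreeGroup (Fin m),
    (∃ L : List (Fin m × Bool), L.length ≤ n ∧ w = FreeGroup.mk L) ∧
    w ∈ Subgroup.normalClosure (↑rels : Set (FreeGroup (Fin m))) ∧
    ∀ l : List (FreeGroup (Fin m) × FreeGroup (Fin m)),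
      (∀ p : FreeGroup (Fin m) × FreeGroup (Fin m), p ∈ l → (p.2 ∈ rels ∨ p.2⁻¹ ∈ rels)) →
      w = (l.map (fun p : FreeGroup (Fin m) × FreeGroup (Fin m) => p.1 * p.2 * p.1⁻¹)).prod →
      C * 2 ^ (C * n) + C < l.length

/-- the group of a finite presentation -/
abbrev PG {m : ℕ} (rels : Finset (FreeGroup (Fin m))) : Type :=
  PresentedGroup (↑rels : Set (FreeGroup (Fin m)))

/-- the quotient map -/
abbrev pg {m : ℕ} (rels : Finset (FreeGroup (Fin m))) : FreeGroup (Fin m) →* PG rels :=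
  PresentedGroup.mk _

/-- add a generator -/
def liftF {m : ℕ} : FreeGroup (Fin m) →* FreeGroup (Fin (m + 1)) := FreeGroup.map Fin.castSucc

/-- the new generator -/
def sigma {m : ℕ} : FreeGroup (Fin (m + 1)) := FreeGroup.of (Fin.last m)

/-- the relators of the trivial HNN extension: the new generator commutes with `Ns` -/
def relsT {m : ℕ} (rels Ns : Finset (FreeGroup (Fin m))) : Finset (FreeGroup (Fin (m + 1))) :=
  rels.image liftF ∪ Ns.image (fun n => sigma * liftF n * sigma⁻¹ * (liftF n)⁻¹)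

/-- the subgroup generated by the images of `Ns` -/
def subN {m : ℕ} (rels Ns : Finset (FreeGroup (Fin m))) : Subgroup (PG rels) :=
  Subgroup.closure (pg rels '' (↑Ns : Set (FreeGroup (Fin m))))

/-! ### Generic statements -/

/-- passing to the kernel of a map to a finite group -/
def StmFI : Prop := ∀ (m : ℕ) (rels : Finset (FreeGroup (Fin m))), SuperExp rels →
  ∀ (B : Type) [Group B] [Finite B] (β : PG rels →* B),
    ∃ (m' : ℕ) (rels' : Finset (FreeGroup (Fin m'))),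
      Nonempty (PG rels' ≃* β.ker) ∧ SuperExp rels'

/-- the lower bound for trivial HNN extensions -/
def StmLB : Prop := ∀ (m : ℕ) (rels Ns : Finset (FreeGroup (Fin m))) (f : PG rels → ℝ) (c : ℝ),
  (∀ n ∈ Ns, ∀ x : PG rels, |f x - f ((pg rels n)⁻¹ * x)| ≤ c) →
  (∀ K : ℕ, ∃ L : List (Fin m × Bool), pg rels (FreeGroup.mk L) ∈ subN rels Ns ∧
    (K : ℝ) * 2 ^ (K * (L.length + 1)) < |f 1 - f (pg rels (FreeGroup.mk L))⁻¹|) →
  SuperExp (relsT rels Ns)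

/-- the presentation of the trivial HNN extension -/
def StmTH : Prop := ∀ (m : ℕ) (rels Ns : Finset (FreeGroup (Fin m))),
  Nonempty (PG (relsT rels Ns) ≃* TH (subN rels Ns))

/-- normal forms: detecting a vertex group of an amalgam -/
def StmNF : Prop := ∀ (G : Type) [Group G] (C M : Subgroup G) (h : G →* Multiplicative ℤ)
  (Θ : G →* TH C), C ⊔ M = ⊤ → (∀ m ∈ M, h m = 1) → (∀ c ∈ C, h c = 1 → c ∈ M) →
  (∀ m ∈ M, Θ m = thB C m) →
  (∀ c ∈ C, Θ c = thB C c * (thT C) ^ (Multiplicative.toAdd (h c))) →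
  ∀ g, (Θ g).left = 1 → g ∈ M

/-! ### The data -/

/-- the letters: `p_i = i`, `q_i = 8 + i`, `r_i = 16 + i`, `s_i = 24 + i`, and the letters
`z_p, z_q, z_r, z_s = 32, 33, 34, 35` -/
abbrev Lt : Type := Fin 36

/-- the squares: the tuple `(a, b, c, d)` stands for the relator `a b⁻¹ c d⁻¹` -/
def sqs : List (Lt × Lt × Lt × Lt) :=
  [(15, 8, 31, 24), (15, 24, 31, 8), (15, 10, 31, 26), (15, 26, 31, 10),
   (13, 11, 29, 27), (13, 27, 29, 11), (13, 9, 29, 25), (13, 25, 29, 9),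
   (12, 9, 28, 25), (12, 25, 28, 9), (14, 10, 30, 26), (14, 26, 30, 10),
   (13, 8, 29, 24), (13, 24, 29, 8), (31, 27, 7, 3), (31, 3, 7, 27),
   (28, 26, 4, 2), (28, 2, 4, 26), (30, 25, 6, 1), (30, 1, 6, 25),
   (31, 25, 7, 1), (31, 1, 7, 25), (29, 26, 5, 2), (29, 2, 5, 26),
   (30, 24, 6, 0), (30, 0, 6, 24), (28, 24, 4, 0), (28, 0, 4, 24),
   (7, 0, 23, 16), (7, 16, 23, 0), (5, 1, 21, 17), (5, 17, 21, 1),
   (5, 0, 21, 16), (5, 16, 21, 0), (4, 3, 20, 19), (4, 19, 20, 3),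
   (6, 2, 22, 18), (6, 18, 22, 2), (4, 1, 20, 17), (4, 17, 20, 1),
   (6, 3, 22, 19), (6, 19, 22, 3), (13, 3, 33, 32), (13, 32, 33, 3),
   (19, 13, 34, 33), (19, 33, 34, 13), (29, 19, 35, 34), (29, 34, 35, 19)]

/-- the relator of a square -/
def sqRel (t : Lt × Lt × Lt × Lt) : FreeGroup Lt :=
  FreeGroup.of t.1 * (FreeGroup.of t.2.1)⁻¹ * FreeGroup.of t.2.2.1 * (FreeGroup.of t.2.2.2)⁻¹

/-- the relators of `G`: the squares and the base letter `p_3` -/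
def relF : Finset (FreeGroup Lt) := insert (FreeGroup.of 3) (sqs.map sqRel).toFinset

/-- the group -/
abbrev G : Type := PG relF

/-- the generators -/
def gl (e : Lt) : G := pg relF (FreeGroup.of e)

/-- the generators of `N`: the letters `p_i` -/
def NsF : Finset (FreeGroup Lt) :=
  {FreeGroup.of 0, FreeGroup.of 1, FreeGroup.of 2, FreeGroup.of 4, FreeGroup.of 5, FreeGroup.of 6,
    FreeGroup.of 7}

/-- the subgroup `N` -/
abbrev N : Subgroup G := subN relF NsF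

/-- the hat letters of the four colours: `p_3, q_5, r_3, s_5` -/
def hat : Fin 4 → Lt := ![3, 13, 19, 29]

/-- the letters `z` of the four colours -/
def zl : Fin 4 → Lt := ![32, 33, 34, 35]

/-- the colour of a letter -/
def col (e : Lt) : Fin 4 := if h : e.val < 32 then ⟨e.val / 8, by omega⟩ else ⟨e.val - 32, by omega⟩

/-- the letters of the subcomplex -/
def isY (e : Lt) : Bool := e.val == 3 || e.val == 13 || e.val == 19 || e.val == 29 || 32 ≤ e.val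

/-- the subgroup generated by the letters of the subcomplex -/
def C1 : Subgroup G := Subgroup.closure {g | ∃ e : Lt, isY e = true ∧ g = gl e}

/-- the subgroup generated by the hat letters -/
def F1 : Subgroup G := Subgroup.closure {g | ∃ c : Fin 4, g = gl (hat c)}

/-- the subgroup generated by the letters of the four colours -/
def M1 : Subgroup G := Subgroup.closure {g | ∃ e : Lt, e.val < 32 ∧ g = gl e}

/-- the path with four vertices -/
def P4 : SimpleGraph (Fin 4) := SimpleGraph.fromRel (fun i j => i.val + 1 = j.val)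

/-- the group of the path -/
abbrev K4 : Type := RAAG P4

/-- the generators of the group of the path -/
def kk (i : Fin 4) : K4 := PresentedGroup.of i

/-- the images of the letters in the group of the path -/
def thv (e : Lt) : K4 :=
  if e.val < 8 then 1
  else if e.val < 16 then kk 0
  else if e.val < 24 then kk 2 * (kk 1)⁻¹ * kk 0
  else if e.val < 32 then kk 3 * kk 2 * (kk 1)⁻¹ * kk 0
  else if e.val = 32 then (kk 1)⁻¹ * (kk 1)⁻¹ * kk 0 * kk 0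
  else if e.val = 33 then (kk 1)⁻¹ * (kk 1)⁻¹ * kk 0
  else if e.val = 34 then (kk 2)⁻¹ * (kk 1)⁻¹ * kk 0
  else (kk 3)⁻¹ * (kk 2)⁻¹ * (kk 1)⁻¹ * kk 0

/-! ### Statements about the group -/

/-- the differences of letters of the same colour lie in `N` -/
def StmF1a : Prop := ∀ e : Lt, e.val < 32 → gl e * (gl (hat (col e)))⁻¹ ∈ N

/-- the hat letters normalise `N` -/
def StmF1b : Prop := ∀ (c : Fin 4) (n : G), n ∈ N ↔ gl (hat c) * n * (gl (hat c))⁻¹ ∈ N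

/-- the height function: the exponent sum of the letters `z` -/
def StmF2 : Prop := ∃ h : G →* Multiplicative ℤ,
  (∀ e : Lt, h (gl e) = if e.val < 32 then 1 else Multiplicative.ofAdd 1) ∧
  ∀ c ∈ C1, h c = 1 → c ∈ F1

/-- the map to the group of the path is injective on `F1` -/
def StmF3 : Prop := ∃ θ : G →* K4, (∀ e : Lt, θ (gl e) = thv e) ∧ ∀ f ∈ F1, θ f = 1 → f = 1

/-- the map to the trivial HNN extension over `C1` -/
def StmF4 : Prop := ∃ Θ : G →* TH C1,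
  ∀ e : Lt, Θ (gl e) = if e.val < 32 then thB C1 (gl e) else thB C1 (gl e) * thT C1

/-- the growth of the action on `N` -/
def StmGr : Prop := ∃ (f : G → ℝ) (c : ℝ),
  (∀ n ∈ NsF, ∀ x : G, |f x - f ((pg relF n)⁻¹ * x)| ≤ c) ∧
  (∀ K : ℕ, ∃ L : List (Lt × Bool), pg relF (FreeGroup.mk L) ∈ N ∧
    (K : ℝ) * 2 ^ (K * (L.length + 1)) < |f 1 - f (pg relF (FreeGroup.mk L))⁻¹|)

/-! ### The labels -/

/-- the finite group of positions -/
abbrev Bz : Type := Fin 11 → ZMod 4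

/-- the positions of the letters -/
def be : Lt → Bz :=
  ![![1, 0, 0, 0, 0, 0, 0, 0, 0, 0, 0],
    ![0, 1, 0, 0, 0, 0, 0, 0, 0, 0, 0],
    ![0, 0, 1, 0, 0, 0, 0, 0, 0, 0, 0],
    ![0, 0, 0, 0, 0, 0, 0, 0, 0, 0, 0],
    ![0, 0, 0, 1, 0, 0, 0, 0, 0, 0, 0],
    ![0, 0, 0, 0, 1, 0, 0, 0, 0, 0, 0],
    ![0, 0, 0, 0, 0, 1, 0, 0, 0, 0, 0],
    ![0, 0, 0, 0, 0, 0, 1, 0, 0, 0, 0],
    ![1, 0, 0, 0, 0, 0, 0, 1, 3, 0, 0],
    ![0, 1, 0, 0, 0, 0, 0, 1, 3, 0, 0],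
    ![0, 0, 1, 0, 0, 0, 0, 1, 3, 0, 0],
    ![0, 0, 0, 0, 0, 0, 0, 1, 3, 0, 0],
    ![0, 0, 0, 1, 0, 0, 0, 1, 3, 0, 0],
    ![0, 0, 0, 0, 1, 0, 0, 1, 3, 0, 0],
    ![0, 0, 0, 0, 0, 1, 0, 1, 3, 0, 0],
    ![0, 0, 0, 0, 0, 0, 1, 1, 3, 0, 0],
    ![3, 0, 0, 0, 0, 0, 0, 0, 0, 1, 0],
    ![0, 3, 0, 0, 0, 0, 0, 0, 0, 1, 0],
    ![0, 0, 3, 0, 0, 0, 0, 0, 0, 1, 0],
    ![0, 0, 0, 0, 0, 0, 0, 0, 0, 1, 0],
    ![0, 0, 0, 3, 0, 0, 0, 0, 0, 1, 0],
    ![0, 0, 0, 0, 3, 0, 0, 0, 0, 1, 0],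
    ![0, 0, 0, 0, 0, 3, 0, 0, 0, 1, 0],
    ![0, 0, 0, 0, 0, 0, 3, 0, 0, 1, 0],
    ![3, 0, 0, 0, 0, 0, 0, 0, 1, 0, 0],
    ![0, 3, 0, 0, 0, 0, 0, 0, 1, 0, 0],
    ![0, 0, 3, 0, 0, 0, 0, 0, 1, 0, 0],
    ![0, 0, 0, 0, 0, 0, 0, 0, 1, 0, 0],
    ![0, 0, 0, 3, 0, 0, 0, 0, 1, 0, 0],
    ![0, 0, 0, 0, 3, 0, 0, 0, 1, 0, 0],
    ![0, 0, 0, 0, 0, 3, 0, 0, 1, 0, 0],
    ![0, 0, 0, 0, 0, 0, 3, 0, 1, 0, 0],
    ![0, 0, 0, 0, 0, 0, 0, 0, 0, 0, 1],
    ![0, 0, 0, 0, 3, 0, 0, 3, 1, 0, 1],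
    ![0, 0, 0, 0, 0, 0, 0, 0, 0, 3, 1],
    ![0, 0, 0, 0, 1, 0, 0, 0, 3, 0, 1]]

/-- the offsets of the letters -/
def ofs : Lt → Bz :=
  ![![0, 0, 0, 0, 0, 0, 0, 0, 0, 0, 0],
    ![0, 0, 0, 0, 0, 0, 0, 0, 0, 0, 0],
    ![0, 0, 0, 0, 0, 0, 0, 0, 0, 0, 0],
    ![0, 0, 0, 0, 0, 0, 0, 0, 0, 0, 0],
    ![0, 0, 0, 0, 0, 0, 0, 0, 0, 0, 0],
    ![0, 0, 0, 0, 0, 0, 0, 0, 0, 0, 0],
    ![0, 0, 0, 0, 0, 0, 0, 0, 0, 0, 0],
    ![0, 0, 0, 0, 0, 0, 0, 0, 0, 0, 0],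
    ![0, 0, 0, 0, 0, 1, 3, 0, 0, 0, 0],
    ![0, 0, 0, 0, 3, 1, 0, 0, 0, 0, 0],
    ![0, 0, 0, 1, 0, 0, 3, 0, 0, 0, 0],
    ![0, 0, 0, 0, 3, 0, 1, 0, 0, 0, 0],
    ![0, 3, 1, 0, 0, 0, 0, 0, 0, 0, 0],
    ![0, 0, 1, 0, 0, 0, 0, 0, 0, 0, 0],
    ![0, 1, 3, 0, 0, 0, 0, 0, 0, 0, 0],
    ![3, 0, 0, 0, 0, 0, 0, 0, 0, 0, 0],
    ![3, 0, 0, 0, 0, 0, 1, 0, 0, 0, 0],
    ![0, 3, 0, 0, 1, 0, 0, 0, 0, 0, 0],
    ![0, 0, 3, 0, 0, 1, 0, 0, 0, 0, 0],
    ![0, 0, 0, 1, 0, 0, 0, 0, 0, 0, 0],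
    ![0, 0, 0, 3, 0, 0, 0, 0, 0, 0, 0],
    ![0, 1, 0, 0, 3, 0, 0, 0, 0, 0, 0],
    ![0, 0, 1, 0, 0, 3, 0, 0, 0, 0, 0],
    ![1, 0, 0, 0, 0, 0, 3, 0, 0, 0, 0],
    ![3, 0, 0, 0, 0, 1, 0, 0, 0, 0, 0],
    ![0, 3, 0, 0, 0, 1, 0, 0, 0, 0, 0],
    ![0, 0, 3, 1, 0, 0, 0, 0, 0, 0, 0],
    ![0, 0, 0, 0, 0, 0, 1, 0, 0, 0, 0],
    ![0, 0, 1, 3, 0, 0, 0, 0, 0, 0, 0],
    ![0, 0, 1, 0, 3, 0, 0, 0, 0, 0, 0],
    ![0, 1, 0, 0, 0, 3, 0, 0, 0, 0, 0],
    ![0, 0, 0, 0, 0, 0, 3, 0, 0, 0, 0],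
    ![0, 0, 0, 0, 1, 0, 0, 1, 3, 0, 0],
    ![0, 0, 1, 0, 3, 0, 0, 3, 1, 0, 0],
    ![0, 0, 0, 1, 1, 0, 0, 1, 3, 3, 0],
    ![0, 0, 1, 0, 0, 0, 0, 0, 3, 1, 0]]

/-- the types of the letters -/
def tp : Lt → Fin 8 :=
  ![0, 1, 2, 3, 4, 5, 6, 7, 0, 1, 2, 3, 4, 5, 6, 7, 0, 1, 2, 3, 4, 5, 6, 7, 0, 1, 2, 3, 4, 5, 6, 7, 3, 5, 3, 5]

/-- the signs of the letters -/
def ep : Lt → ℤ :=
  ![1, 1, 1, 1, 1, 1, 1, 1, 1, 1, 1, 1, 1, 1, 1, 1, -1, -1, -1, -1, -1, -1, -1, -1, -1, -1, -1, -1, -1, -1, -1, -1, -1, -1, 1, 1]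

/-- the generators of the translation subgroup of a type: parallel edges of a square have the same
position up to this subgroup -/
def Kgen (j : Fin 8) : Set Bz :=
  {x | ∃ t ∈ sqs, (tp t.1 = j ∧ x = ofs t.1 - (be t.1 - be t.2.1 + ofs t.2.2.1)) ∨
    (tp t.2.1 = j ∧ x = ofs t.2.2.2 - (be t.1 - be t.2.1 + ofs t.2.1))}

/-- the translation subgroup of a type -/
def Kj (j : Fin 8) : AddSubgroup Bz := AddSubgroup.closure (Kgen j)

/-- the translation subgroup of the subcomplex -/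
def KT : AddSubgroup Bz := AddSubgroup.closure {x | ∃ e : Lt, isY e = true ∧ x = be e}

/-- the vertices of the first kind: the classes of edges -/
abbrev Vc : Type := Σ j : Fin 8, Bz ⧸ Kj j

/-- the label of the edge `e` with origin at the position `b` -/
def lab (e : Lt) (b : Bz) : Vc := ⟨tp e, QuotientAddGroup.mk (b + ofs e)⟩

/-- corners of the squares at the origins of the edges -/
def cornP (e f : Lt) : Bool :=
  sqs.any (fun t => (e == t.1 && f == t.2.2.2) || (f == t.1 && e == t.2.2.2) ||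
    (e == t.2.1 && f == t.2.2.1) || (f == t.2.1 && e == t.2.2.1))

/-- corners of the squares at the ends of the edges -/
def cornM (e f : Lt) : Bool :=
  sqs.any (fun t => (e == t.1 && f == t.2.1) || (f == t.1 && e == t.2.1) ||
    (e == t.2.2.1 && f == t.2.2.2) || (f == t.2.2.1 && e == t.2.2.2))

/-- adjacency of classes of edges -/
def adjV (v w : Vc) : Prop :=
  (∃ (b : Bz) (e f : Lt), cornP e f = true ∧ v = lab e b ∧ w = lab f b) ∨
  (∃ (b : Bz) (e f : Lt), cornM e f = true ∧ v = lab e (b - be e) ∧ w = lab f (b - be f))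

/-- adjacency of a class of edges with a class of positions -/
def adjT (v : Vc) (c : Bz ⧸ KT) : Prop :=
  ∃ (b : Bz) (e : Lt), isY e = true ∧ v = lab e b ∧ c = QuotientAddGroup.mk b

/-- different edges at a vertex have different labels -/
def StmH1 : Prop := (∀ (b : Bz) (e f : Lt), lab e b = lab f b → e = f) ∧
  (∀ (b : Bz) (e f : Lt), lab e (b - be e) = lab f (b - be f) → e = f)

/-- edges at a vertex with adjacent labels span a square -/
def StmH2 : Prop := (∀ (b : Bz) (e f : Lt), e ≠ f → adjV (lab e b) (lab f b) → cornP e f = true) ∧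
  (∀ (b : Bz) (e f : Lt), e ≠ f → adjV (lab e (b - be e)) (lab f (b - be f)) → cornM e f = true)

/-- edges at a vertex of the subcomplex with a label of the subcomplex are in the subcomplex -/
def StmH3 : Prop :=
  (∀ (b : Bz) (e : Lt), adjT (lab e b) (QuotientAddGroup.mk b) → isY e = true) ∧
  (∀ (b : Bz) (e : Lt), adjT (lab e (b - be e)) (QuotientAddGroup.mk b) → isY e = true)

/-! ### The right-angled Artin group -/

/-- the vertices -/
abbrev Vx : Type := Vc ⊕ (Bz ⧸ KT) ⊕ Fin 4 ⊕ Unit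

/-- the adjacency -/
def adjR : Vx → Vx → Prop
  | Sum.inl v, Sum.inl w => adjV v w
  | Sum.inl v, Sum.inr (Sum.inl c) => adjT v c
  | Sum.inl _, Sum.inr (Sum.inr (Sum.inl _)) => True
  | Sum.inl _, Sum.inr (Sum.inr (Sum.inr _)) => True
  | Sum.inr (Sum.inl _), Sum.inr (Sum.inr (Sum.inl _)) => True
  | Sum.inr (Sum.inr (Sum.inl i)), Sum.inr (Sum.inr (Sum.inl j)) => i.val + 1 = j.val
  | _, _ => False

/-- the graph -/
def Gx : SimpleGraph Vx := SimpleGraph.fromRel adjR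

/-- the right-angled Artin group -/
abbrev D : Type := RAAG Gx

/-- the translation of the vertices by a position -/
def shV (b : Bz) : Vx → Vx
  | Sum.inl ⟨j, x⟩ => Sum.inl ⟨j, QuotientAddGroup.mk b + x⟩
  | Sum.inr (Sum.inl c) => Sum.inr (Sum.inl (QuotientAddGroup.mk b + c))
  | Sum.inr (Sum.inr x) => Sum.inr (Sum.inr x)

/-- the translations act on the right-angled Artin group -/
def StmAct : Prop := ∃ φ : Multiplicative Bz →* MulAut D,
  ∀ (b : Bz) (v : Vx), φ (Multiplicative.ofAdd b) (PresentedGroup.of v) = PresentedGroup.of (shV b v)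

/-- the embedding theorem -/
def StmEmb : Prop := ∃ (φ : Multiplicative Bz →* MulAut D) (Ψ : TH N →* D ⋊[φ] Multiplicative Bz),
  Function.Injective Ψ

/-- the group `G₂` -/
abbrev G2 : Type := TH C1 × K4

/-- the subgroup `G × 1` of `G₂` -/
def Z2 : Subgroup G2 := ((MonoidHom.inl (TH C1) K4).comp (thB C1)).range

/-- the group of states -/
abbrev Xh : Type := TH Z2

/-- the base map `G → Xh` -/
def iG : G →* Xh := (thB Z2).comp ((MonoidHom.inl (TH C1) K4).comp (thB C1))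

/-- the stable letter of the first extension -/
def tauX : Xh := thB Z2 (thT C1, 1)

/-- the generators of the group of the path -/
def kkX (i : Fin 4) : Xh := thB Z2 (1, kk i)

/-- the stable letter of the second extension -/
def sigX : Xh := thT Z2

/-- the action of the right-angled Artin group on the states: `π` is the position map; the
generator `v` of the first kind moves along the edge with label `v`, if there is one -/
def StmPerm : Prop := ∃ (π : Xh →* Multiplicative Bz) (ρ : D →* Equiv.Perm (Xh × Bool)),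
  (∀ e : Lt, π (iG (gl e)) = Multiplicative.ofAdd (be e)) ∧ π tauX = 1 ∧
  (∀ i, π (kkX i) = 1) ∧ π sigX = 1 ∧
  (∀ (e : Lt) (x : Xh), (ρ (PresentedGroup.of (Sum.inl (lab e (Multiplicative.toAdd (π x))))))
    (x, true) = (x * iG (gl e), false)) ∧
  (∀ (e : Lt) (x : Xh),
    (ρ (PresentedGroup.of (Sum.inl (lab e (Multiplicative.toAdd (π x))))))
      (x * iG (gl e), false) = (x, true)) ∧
  (∀ (x : Xh) (s : Bool), (ρ (PresentedGroup.of (Sum.inr (Sum.inl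
    (QuotientAddGroup.mk (Multiplicative.toAdd (π x)))))))⁻¹ (x, s) = (x * tauX, s)) ∧
  (∀ (i : Fin 4) (x : Xh) (s : Bool), (ρ (PresentedGroup.of (Sum.inr (Sum.inr (Sum.inl i)))))⁻¹
    (x, s) = (x * kkX i, s)) ∧
  (∀ (x : Xh) (s : Bool), (ρ (PresentedGroup.of (Sum.inr (Sum.inr (Sum.inr ())))))⁻¹
    (x, s) = (x * sigX, s))

end Pool.Agent.W387.RA
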