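import Pool.Agent.W387.R.Perm
import Pool.Agent.W387.R.Strong
import Pool.Agent.W589.RT.TH
import Pool.Agent.W554.RA.NF
import Pool.Agent.W551.RA.F1
import Pool.Agent.W585.RA.F24
import Pool.Agent.W168.RA.F3
import Pool.Agent.W418.RAH.Main
import Pool.Agent.W503.RA.Act

/-!
A finitely presented subgroup of a right-angled Artin group with superexponential Dehn function.
-/

set_option autoImplicit false

namespace Pool.Agent.W387.RA

/-- a finitely presented subgroup of a right-angled Artin group with large Dehn function -/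
theorem mainT :
    ∃ k : ℕ, ∃ Γ : SimpleGraph (Fin k), ∃ H : Subgroup (RAAG Γ), ∃ m : ℕ,
      ∃ rels : Finset (FreeGroup (Fin m)),
        Nonempty (PresentedGroup (↑rels : Set (FreeGroup (Fin m))) ≃* ↥H) ∧
        ∀ n : ℕ, HardAt rels (32 * n + 4) (2 ^ (n * (n + 1) / 2) - 1) :=
  main_of (perm Pool.Agent.W418.RAH.h1 Pool.Agent.W418.RAH.h2 Pool.Agent.W418.RAH.h3)
    Pool.Agent.W503.RA.act Pool.Agent.W551.RA.StmF1a Pool.Agent.W551.RA.StmF1b
    Pool.Agent.W585.RA.mainF2 Pool.Agent.W168.RA.f3 Pool.Agent.W585.RA.mainF4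
    Pool.Agent.W554.RA.stmNF Pool.Agent.W589.RT.stmTH

/-- the growth rate of the bound -/
theorem num_bound (C : ℕ) : C * 2 ^ (C * (32 * (80 * C + 2) + 4)) + C + 1 ≤
    2 ^ ((80 * C + 2) * ((80 * C + 2) + 1) / 2) := by
  set n := 80 * C + 2 with hn
  have h1 : C * (32 * n + 5) + 1 ≤ n * (n + 1) / 2 := by
    rw [Nat.le_div_iff_mul_le (by norm_num), hn]
    nlinarith [Nat.zero_le C, Nat.zero_le (C * C)]
  have h2 : C < 2 ^ C := Nat.lt_two_pow_self
  have h3 : C * 2 ^ (C * (32 * n + 4)) ≤ 2 ^ (C * (32 * n + 5)) := by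
    calc C * 2 ^ (C * (32 * n + 4)) ≤ 2 ^ C * 2 ^ (C * (32 * n + 4)) :=
          Nat.mul_le_mul_right _ h2.le
      _ = 2 ^ (C * (32 * n + 5)) := by
          rw [← pow_add]
          congr 1
          ring
  have h4 : C + 1 ≤ 2 ^ (C * (32 * n + 5)) := by
    refine le_trans h2 (Nat.pow_le_pow_right (by norm_num) ?_)
    exact Nat.le_mul_of_pos_right _ (by omega)
  calc C * 2 ^ (C * (32 * n + 4)) + C + 1
      ≤ 2 ^ (C * (32 * n + 5)) + 2 ^ (C * (32 * n + 5)) := by omega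
    _ = 2 ^ (C * (32 * n + 5) + 1) := by rw [pow_succ]; ring
    _ ≤ 2 ^ (n * (n + 1) / 2) := Nat.pow_le_pow_right (by norm_num) h1

end Pool.Agent.W387.RA
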