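import Pool.Agent.W387.R.Stm

/-!
The embedding of the trivial HNN extension in the extension of a right-angled Artin group by a
finite group.
-/

set_option autoImplicit false

namespace Pool.Agent.W387.RA

open Pool.Agent.W387

/-! ### Elements of `D` -/

/-- generator of the first kind -/
def xv (v : Vc) : D := PresentedGroup.of (Sum.inl v)

/-- generator of the second kind -/
def xt (c : Bz ⧸ KT) : D := PresentedGroup.of (Sum.inr (Sum.inl c))

/-- generator of the third kind -/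
def xk (i : Fin 4) : D := PresentedGroup.of (Sum.inr (Sum.inr (Sum.inl i)))

/-- the last generator -/
def xs : D := PresentedGroup.of (Sum.inr (Sum.inr (Sum.inr ())))

theorem comm_of_adj {α : Type} {Γ : SimpleGraph α} {a b : α} (h : Γ.Adj a b) :
    Commute (PresentedGroup.of a : RAAG Γ) (PresentedGroup.of b) := by
  have h1 : (PresentedGroup.mk (raagRels Γ)) (FreeGroup.of a * FreeGroup.of b * (FreeGroup.of a)⁻¹ *
      (FreeGroup.of b)⁻¹) = 1 := by
    rw [PresentedGroup.mk_eq_one_iff]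
    exact Subgroup.subset_normalClosure ⟨a, b, h, rfl⟩
  rw [map_mul, map_mul, map_mul, map_inv, map_inv] at h1
  exact mul_inv_eq_iff_eq_mul.mp (mul_inv_eq_one.mp h1)

theorem comm_of_adjR {v w : Vx} (h : adjR v w) :
    Commute (PresentedGroup.of v : D) (PresentedGroup.of w) := by
  by_cases hvw : v = w
  · rw [hvw]
  · exact comm_of_adj ((SimpleGraph.fromRel_adj adjR v w).mpr ⟨hvw, Or.inl h⟩)

theorem comm_vv {v w : Vc} (h : adjV v w) : Commute (xv v) (xv w) :=
  comm_of_adjR (v := Sum.inl v) (w := Sum.inl w) h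

theorem comm_vt {v : Vc} {c : Bz ⧸ KT} (h : adjT v c) : Commute (xv v) (xt c) :=
  comm_of_adjR (v := Sum.inl v) (w := Sum.inr (Sum.inl c)) h

theorem comm_vk (v : Vc) (i : Fin 4) : Commute (xv v) (xk i) :=
  comm_of_adjR (v := Sum.inl v) (w := Sum.inr (Sum.inr (Sum.inl i))) trivial

theorem comm_vs (v : Vc) : Commute (xv v) xs :=
  comm_of_adjR (v := Sum.inl v) (w := Sum.inr (Sum.inr (Sum.inr ()))) trivial

theorem comm_tk (c : Bz ⧸ KT) (i : Fin 4) : Commute (xt c) (xk i) :=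
  comm_of_adjR (v := Sum.inr (Sum.inl c)) (w := Sum.inr (Sum.inr (Sum.inl i))) trivial

theorem comm_kk {i j : Fin 4} (h : i.val + 1 = j.val) : Commute (xk i) (xk j) :=
  comm_of_adjR (v := Sum.inr (Sum.inr (Sum.inl i))) (w := Sum.inr (Sum.inr (Sum.inl j))) h

/-- the inclusion of the group of the path -/
def jK : K4 →* D := PresentedGroup.toGroup (f := xk) (by
  rintro r ⟨a, b, h, rfl⟩
  rw [map_mul, map_mul, map_mul, map_inv, map_inv, FreeGroup.lift_apply_of, FreeGroup.lift_apply_of]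
  have h1 : Commute (xk a) (xk b) := by
    rw [P4, SimpleGraph.fromRel_adj] at h
    rcases h.2 with h | h
    · exact comm_kk h
    · exact (comm_kk h).symm
  rw [h1.eq]
  group)

@[simp] theorem jK_kk (i : Fin 4) : jK (kk i) = xk i := PresentedGroup.toGroup.of _

theorem K4_ind {p : K4 → Prop} (h1 : p 1) (hk : ∀ i, p (kk i)) (hm : ∀ x y, p x → p y → p (x * y))
    (hi : ∀ x, p x → p x⁻¹) (x : K4) : p x := by
  obtain ⟨w, rfl⟩ := PresentedGroup.mk_surjective _ x
  induction w using FreeGroup.induction_on with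
  | C1 => rw [map_one]; exact h1
  | of i => exact hk i
  | inv_of i _ => rw [map_inv]; exact hi _ (hk i)
  | mul x y hx hy => rw [map_mul]; exact hm _ _ hx hy

theorem comm_jK {d : D} (h : ∀ i, Commute d (xk i)) (x : K4) : Commute d (jK x) := by
  induction x using K4_ind with
  | h1 => rw [map_one]; exact Commute.one_right _
  | hk i => rw [jK_kk]; exact h i
  | hm x y hx hy => rw [map_mul]; exact hx.mul_right hy
  | hi x hx => rw [map_inv]; exact hx.inv_right

/-! ### Paths -/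

/-- the stable letter part -/
def Tp (e : Lt) (b : Bz) : D := if e.val < 32 then 1 else xt (QuotientAddGroup.mk b)

/-- the path of an edge -/
def Pe (e : Lt) (b : Bz) : D := xv (lab e b) ^ (ep e) * Tp e b * jK (thv e)

theorem comm_v_jK (v : Vc) (x : K4) : Commute (xv v) (jK x) := comm_jK (comm_vk v) x

theorem comm_T_jK (e : Lt) (b : Bz) (x : K4) : Commute (Tp e b) (jK x) := by
  unfold Tp
  split_ifs
  · exact Commute.one_left _
  · exact comm_jK (comm_tk _) x

theorem ep_one (e : Lt) : ep e = 1 ∨ ep e = -1 := by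
  revert e
  decide

theorem sqs_ind {p : Lt × Lt × Lt × Lt → Prop} (h : List.Forall p sqs) : ∀ t ∈ sqs, p t :=
  List.forall_iff_forall_mem.mp h

/-- the checks on a square -/
def sqOK (t : Lt × Lt × Lt × Lt) : Prop :=
  tp t.1 = tp t.2.2.1 ∧ tp t.2.1 = tp t.2.2.2 ∧ ep t.2.2.1 = -ep t.1 ∧ ep t.2.2.2 = -ep t.2.1 ∧
  ((t.1.val < 32 ∧ t.2.1.val < 32 ∧ t.2.2.1.val < 32 ∧ t.2.2.2.val < 32) ∨
    (isY t.1 = true ∧ isY t.2.1 = true ∧ isY t.2.2.1 = true ∧ isY t.2.2.2 = true ∧ t.1.val < 32 ∧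
      ((t.2.1.val < 32 ∧ ¬ t.2.2.1.val < 32 ∧ ¬ t.2.2.2.val < 32) ∨
        (¬ t.2.1.val < 32 ∧ ¬ t.2.2.1.val < 32 ∧ t.2.2.2.val < 32))))

theorem sq_ok : ∀ t ∈ sqs, sqOK t := by
  apply sqs_ind
  simp only [sqs, List.forall_cons, List.Forall]
  simp only [sqOK]
  refine ⟨?_, ?_, ?_, ?_, ?_, ?_, ?_, ?_, ?_, ?_, ?_, ?_, ?_, ?_, ?_, ?_, ?_, ?_, ?_, ?_, ?_, ?_, ?_,
    ?_, ?_, ?_, ?_, ?_, ?_, ?_, ?_, ?_, ?_, ?_, ?_, ?_, ?_, ?_, ?_, ?_, ?_, ?_, ?_, ?_, ?_, ?_, ?_,
    ?_⟩ <;> decide +kernel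

theorem sq_be : ∀ t ∈ sqs, be t.1 - be t.2.1 + be t.2.2.1 - be t.2.2.2 = 0 := by
  apply sqs_ind
  simp only [sqs, List.forall_cons, List.Forall]
  refine ⟨?_, ?_, ?_, ?_, ?_, ?_, ?_, ?_, ?_, ?_, ?_, ?_, ?_, ?_, ?_, ?_, ?_, ?_, ?_, ?_, ?_, ?_, ?_,
    ?_, ?_, ?_, ?_, ?_, ?_, ?_, ?_, ?_, ?_, ?_, ?_, ?_, ?_, ?_, ?_, ?_, ?_, ?_, ?_, ?_, ?_, ?_, ?_,
    ?_⟩ <;> decide +kernel

theorem be_base : be 3 = 0 := by decide +kernel

/-! ### The relation of a square -/

/-- parallel edges have the same label -/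
theorem lab_par1 {t : Lt × Lt × Lt × Lt} (ht : t ∈ sqs) (b : Bz) :
    lab t.1 b = lab t.2.2.1 (b + (be t.1 - be t.2.1)) := by
  have h := (sq_ok t ht).1
  unfold lab
  have h2 : ∀ (j : Fin 8) (x y : Bz) (k : Fin 8) (_ : k = j), x - y ∈ Kj j →
      (⟨j, QuotientAddGroup.mk x⟩ : Vc) = ⟨k, QuotientAddGroup.mk y⟩ := by
    rintro j x y k rfl hxy
    congr 1
    rw [QuotientAddGroup.eq]
    have : -x + y = -(x - y) := by abel
    rw [this]
    exact neg_mem hxy
  apply h2 _ _ _ _ h.symm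
  apply AddSubgroup.subset_closure
  refine ⟨t, ht, Or.inl ⟨rfl, ?_⟩⟩
  abel

theorem lab_par2 {t : Lt × Lt × Lt × Lt} (ht : t ∈ sqs) (b : Bz) :
    lab t.2.2.2 b = lab t.2.1 (b + (be t.1 - be t.2.1)) := by
  have h := (sq_ok t ht).2.1
  unfold lab
  have h2 : ∀ (j : Fin 8) (x y : Bz) (k : Fin 8) (_ : k = j), x - y ∈ Kj k →
      (⟨j, QuotientAddGroup.mk x⟩ : Vc) = ⟨k, QuotientAddGroup.mk y⟩ := by
    rintro j x y k rfl hxy
    congr 1
    rw [QuotientAddGroup.eq]
    have : -x + y = -(x - y) := by abel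
    rw [this]
    exact neg_mem hxy
  apply h2 _ _ _ _ h
  apply AddSubgroup.subset_closure
  refine ⟨t, ht, Or.inr ⟨rfl, ?_⟩⟩
  abel

theorem cornP_of {t : Lt × Lt × Lt × Lt} (ht : t ∈ sqs) : cornP t.1 t.2.2.2 = true := by
  unfold cornP
  rw [List.any_eq_true]
  exact ⟨t, ht, by simp⟩

theorem adj_sq {t : Lt × Lt × Lt × Lt} (ht : t ∈ sqs) (b : Bz) :
    adjV (lab t.1 b) (lab t.2.2.2 b) :=
  Or.inl ⟨b, t.1, t.2.2.2, cornP_of ht, rfl, rfl⟩

/-- a computation in a group -/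
theorem grp_sq {H : Type} [Group H] {x y s a b c d : H} (na nb nc nd : ℤ) (hxy : Commute x y)
    (hsx : Commute s x) (hsy : Commute s y) (hn : na - nb + nc - nd = 0)
    (hxa : Commute x a) (hxb : Commute x b)
    (hya : Commute y a) (hyb : Commute y b) (hyc : Commute y c) (hyd : Commute y d)
    (hsa : Commute s a) (hsb : Commute s b) (hsc : Commute s c) (hsd : Commute s d)
    (h : a * b⁻¹ * c * d⁻¹ = 1) :
    (x * s ^ na * a) * (y * s ^ nb * b)⁻¹ * (x⁻¹ * s ^ nc * c) * (y⁻¹ * s ^ nd * d)⁻¹ = 1 := by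
  have e1 : (x * s ^ na * a) * (y * s ^ nb * b)⁻¹ = (x * y⁻¹ * s ^ (na - nb)) * (a * b⁻¹) := by
    have k1 : Commute (a * b⁻¹) ((s ^ nb)⁻¹ * y⁻¹) :=
      ((((hsa.zpow_left nb).inv_left.mul_left (hya.inv_left)).symm).mul_left
        ((((hsb.zpow_left nb).inv_left.mul_left (hyb.inv_left)).symm).inv_left))
    have k2 : Commute (s ^ na * (s ^ nb)⁻¹) y⁻¹ :=
      (((hsy.zpow_left na)).mul_left ((hsy.zpow_left nb).inv_left)).inv_right
    calc (x * s ^ na * a) * (y * s ^ nb * b)⁻¹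
        = x * s ^ na * ((a * b⁻¹) * ((s ^ nb)⁻¹ * y⁻¹)) := by group
      _ = x * ((s ^ na * (s ^ nb)⁻¹) * y⁻¹) * (a * b⁻¹) := by rw [k1.eq]; group
      _ = x * y⁻¹ * s ^ (na - nb) * (a * b⁻¹) := by rw [k2.eq]; group
  have e2 : (x⁻¹ * s ^ nc * c) * (y⁻¹ * s ^ nd * d)⁻¹ = (x⁻¹ * y * s ^ (nc - nd)) * (c * d⁻¹) := by
    have k1 : Commute (c * d⁻¹) ((s ^ nd)⁻¹ * y) :=
      ((((hsc.zpow_left nd).inv_left.mul_left (hyc)).symm).mul_left
        ((((hsd.zpow_left nd).inv_left.mul_left (hyd)).symm).inv_left))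
    have k2 : Commute (s ^ nc * (s ^ nd)⁻¹) y :=
      (((hsy.zpow_left nc)).mul_left ((hsy.zpow_left nd).inv_left))
    calc (x⁻¹ * s ^ nc * c) * (y⁻¹ * s ^ nd * d)⁻¹
        = x⁻¹ * s ^ nc * ((c * d⁻¹) * ((s ^ nd)⁻¹ * y)) := by group
      _ = x⁻¹ * ((s ^ nc * (s ^ nd)⁻¹) * y) * (c * d⁻¹) := by rw [k1.eq]; group
      _ = x⁻¹ * y * s ^ (nc - nd) * (c * d⁻¹) := by rw [k2.eq]; group
  have hn' : nc - nd = -(na - nb) := by omega
  have k3 : Commute (a * b⁻¹) (x⁻¹ * y * s ^ (nc - nd)) :=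
    ((((hxa.inv_left.mul_left hya).mul_left (hsa.zpow_left _)).symm).mul_left
      (((hxb.inv_left.mul_left hyb).mul_left (hsb.zpow_left _)).symm.inv_left))
  have k4 : Commute (s ^ (na - nb)) (x⁻¹ * y) :=
    (hsx.zpow_left _).inv_right.mul_right (hsy.zpow_left _)
  calc (x * s ^ na * a) * (y * s ^ nb * b)⁻¹ * (x⁻¹ * s ^ nc * c) * (y⁻¹ * s ^ nd * d)⁻¹
      = ((x * s ^ na * a) * (y * s ^ nb * b)⁻¹) * ((x⁻¹ * s ^ nc * c) * (y⁻¹ * s ^ nd * d)⁻¹) := by
        group
    _ = (x * y⁻¹ * s ^ (na - nb)) * ((a * b⁻¹) * (x⁻¹ * y * s ^ (nc - nd))) * (c * d⁻¹) := by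
        rw [e1, e2]; group
    _ = x * y⁻¹ * (s ^ (na - nb) * (x⁻¹ * y)) * s ^ (nc - nd) * (a * b⁻¹ * c * d⁻¹) := by
        rw [k3.eq]; group
    _ = x * y⁻¹ * x⁻¹ * y := by rw [k4.eq, h, hn']; group
    _ = 1 := by
        have : Commute x y⁻¹ := hxy.inv_right
        rw [this.eq]; group

theorem adjT_of {e : Lt} (he : isY e = true) (b : Bz) : adjT (lab e b) (QuotientAddGroup.mk b) :=
  ⟨b, e, he, rfl, rfl⟩

theorem mk_be {e : Lt} (he : isY e = true) (b : Bz) :
    (QuotientAddGroup.mk (b + be e) : Bz ⧸ KT) = QuotientAddGroup.mk b := by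
  rw [QuotientAddGroup.eq]
  have : -(b + be e) + b = -be e := by abel
  rw [this]
  exact neg_mem (AddSubgroup.subset_closure ⟨e, he, rfl⟩)

theorem isY_of_ge {e : Lt} (he : ¬ e.val < 32) : isY e = true := by
  unfold isY
  simp only [Bool.or_eq_true, decide_eq_true_eq]
  right
  omega

/-- the relation of a square in the right-angled Artin group -/
theorem Pe_sq {t : Lt × Lt × Lt × Lt} (ht : t ∈ sqs)
    (hth : thv t.1 * (thv t.2.1)⁻¹ * thv t.2.2.1 * (thv t.2.2.2)⁻¹ = 1) :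
    Pe t.1 0 * (Pe t.2.1 (be t.1 - be t.2.1))⁻¹ * Pe t.2.2.1 (be t.1 - be t.2.1) *
      (Pe t.2.2.2 0)⁻¹ = 1 := by
  obtain ⟨h1, h2, h3, h4, h5⟩ := sq_ok t ht
  have l1 := lab_par1 ht 0
  have l2 := lab_par2 ht 0
  rw [zero_add] at l1 l2
  have hj : jK (thv t.1) * (jK (thv t.2.1))⁻¹ * jK (thv t.2.2.1) * (jK (thv t.2.2.2))⁻¹ = 1 := by
    rw [← map_inv, ← map_inv, ← map_mul, ← map_mul, ← map_mul, hth, map_one]
  have hadj := comm_vv (adj_sq ht 0)
  unfold Pe
  rw [← l1, ← l2, h3, h4]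
  have e3 : xv (lab t.1 0) ^ (-ep t.1) = (xv (lab t.1 0) ^ (ep t.1))⁻¹ := zpow_neg _ _
  have e4 : xv (lab t.2.2.2 0) ^ (-ep t.2.1) = (xv (lab t.2.2.2 0) ^ (ep t.2.1))⁻¹ := zpow_neg _ _
  rw [e3, e4]
  set x := xv (lab t.1 0) ^ (ep t.1) with hx
  set y := xv (lab t.2.2.2 0) ^ (ep t.2.1) with hy
  have hxy : Commute x y := (hadj.zpow_left _).zpow_right _
  have hxj : ∀ k : K4, Commute x (jK k) := fun k => (comm_v_jK _ k).zpow_left _
  have hyj : ∀ k : K4, Commute y (jK k) := fun k => (comm_v_jK _ k).zpow_left _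
  rcases h5 with ⟨a1, a2, a3, a4⟩ | ⟨a1, a2, a3, a4, a5, a6⟩
  · have g := grp_sq (x := x) (y := y) (s := (1 : D)) 0 0 0 0 hxy (Commute.one_left _)
      (Commute.one_left _) (by norm_num) (hxj (thv t.1)) (hxj (thv t.2.1)) (hyj (thv t.1)) (hyj (thv t.2.1)) (hyj (thv t.2.2.1))
      (hyj (thv t.2.2.2)) (Commute.one_left _) (Commute.one_left _) (Commute.one_left _)
      (Commute.one_left _) hj
    unfold Tp
    rw [if_pos a1, if_pos a2, if_pos a3, if_pos a4]
    simpa using g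
  · have hs : (QuotientAddGroup.mk (be t.1 - be t.2.1) : Bz ⧸ KT) = QuotientAddGroup.mk 0 := by
      have k1 := mk_be a1 (-be t.2.1)
      have k2 := mk_be a2 (-be t.2.1)
      have e : -be t.2.1 + be t.1 = be t.1 - be t.2.1 := by abel
      have e' : -be t.2.1 + be t.2.1 = 0 := by abel
      rw [e] at k1
      rw [e'] at k2
      rw [k1, ← k2]
    set s := xt (QuotientAddGroup.mk (0 : Bz)) with hsd
    have hsx : Commute s x := ((comm_vt (adjT_of a1 0)).symm).zpow_right _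
    have hsy : Commute s y := ((comm_vt (adjT_of a4 0)).symm).zpow_right _
    have hsj : ∀ k : K4, Commute s (jK k) := fun k => comm_jK (comm_tk _) k
    have g := fun (na nb nc nd : ℤ) (hn : na - nb + nc - nd = 0) =>
      grp_sq (x := x) (y := y) (s := s) na nb nc nd hxy hsx hsy hn
      (hxj (thv t.1)) (hxj (thv t.2.1)) (hyj (thv t.1)) (hyj (thv t.2.1)) (hyj (thv t.2.2.1))
      (hyj (thv t.2.2.2)) (hsj _) (hsj _) (hsj _) (hsj _) hj
    unfold Tp
    rw [hs]
    rcases a6 with ⟨b1, b2, b3⟩ | ⟨b1, b2, b3⟩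
    · rw [if_pos a5, if_pos b1, if_neg b2, if_neg b3]
      have g1 := g 0 0 1 1 (by norm_num)
      rw [zpow_zero, zpow_one] at g1
      exact g1
    · rw [if_pos a5, if_neg b1, if_neg b2, if_pos b3]
      have g1 := g 0 1 1 0 (by norm_num)
      rw [zpow_zero, zpow_one] at g1
      exact g1

/-! ### The homomorphism on `G` -/

theorem thv_sq_of (θ : G →* K4) (hθ : ∀ e : Lt, θ (gl e) = thv e) {t : Lt × Lt × Lt × Lt}
    (ht : t ∈ sqs) : thv t.1 * (thv t.2.1)⁻¹ * thv t.2.2.1 * (thv t.2.2.2)⁻¹ = 1 := by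
  have h1 : gl t.1 * (gl t.2.1)⁻¹ * gl t.2.2.1 * (gl t.2.2.2)⁻¹ = 1 := by
    unfold gl
    rw [← map_inv, ← map_inv, ← map_mul, ← map_mul, ← map_mul]
    show pg relF (sqRel t) = 1
    rw [PresentedGroup.mk_eq_one_iff]
    apply Subgroup.subset_normalClosure
    show sqRel t ∈ relF
    unfold relF
    rw [Finset.mem_insert]
    right
    rw [List.mem_toFinset]
    exact List.mem_map.mpr ⟨t, ht, rfl⟩
  have h2 := congrArg θ h1
  rwa [map_mul, map_mul, map_mul, map_inv, map_inv, map_one, hθ, hθ, hθ, hθ] at h2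

section main

variable (φ : Multiplicative Bz →* MulAut D)
  (hφ : ∀ (b : Bz) (v : Vx), φ (Multiplicative.ofAdd b) (PresentedGroup.of v) =
    PresentedGroup.of (shV b v))

theorem shV_lab' (b c : Bz) (e : Lt) : shV b (Sum.inl (lab e c)) = Sum.inl (lab e (b + c)) := by
  unfold lab
  show Sum.inl (⟨tp e, QuotientAddGroup.mk b + QuotientAddGroup.mk (c + ofs e)⟩ : Vc) = _
  congr 2
  rw [← QuotientAddGroup.mk_add]
  congr 1
  abel

include hφ in
theorem phi_xv (b c : Bz) (e : Lt) :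
    φ (Multiplicative.ofAdd b) (xv (lab e c)) = xv (lab e (b + c)) := by
  unfold xv
  rw [hφ, shV_lab']

include hφ in
theorem phi_Tp (b c : Bz) (e : Lt) : φ (Multiplicative.ofAdd b) (Tp e c) = Tp e (b + c) := by
  unfold Tp
  split_ifs
  · rw [map_one]
  · unfold xt
    rw [hφ]
    rfl

include hφ in
theorem phi_xk (b : Bz) (i : Fin 4) : φ (Multiplicative.ofAdd b) (xk i) = xk i := by
  unfold xk
  rw [hφ]
  rfl

include hφ in
theorem phi_xs (b : Bz) : φ (Multiplicative.ofAdd b) xs = xs := by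
  unfold xs
  rw [hφ]
  rfl

include hφ in
theorem phi_jK (b : Bz) (x : K4) : φ (Multiplicative.ofAdd b) (jK x) = jK x := by
  induction x using K4_ind with
  | h1 => rw [map_one, map_one]
  | hk i => rw [jK_kk, phi_xk φ hφ]
  | hm x y hx hy => rw [map_mul, map_mul, hx, hy]
  | hi x hx => rw [map_inv, map_inv, hx]

include hφ in
theorem phi_Pe (b c : Bz) (e : Lt) : φ (Multiplicative.ofAdd b) (Pe e c) = Pe e (b + c) := by
  unfold Pe
  rw [map_mul, map_mul, map_zpow, phi_xv φ hφ, phi_Tp φ hφ, phi_jK φ hφ]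

/-- the images of the letters -/
def vG (e : Lt) : D ⋊[φ] Multiplicative Bz :=
  ⟨Pe e 0 * (Pe 3 (be e))⁻¹, Multiplicative.ofAdd (be e)⟩

include hφ in
theorem vG_div (e f : Lt) : vG φ e * (vG φ f)⁻¹ =
    ⟨Pe e 0 * (Pe f (be e - be f))⁻¹, Multiplicative.ofAdd (be e - be f)⟩ := by
  rw [mul_inv_eq_iff_eq_mul]
  apply SemidirectProduct.ext
  · rw [SemidirectProduct.mul_left]
    show Pe e 0 * (Pe 3 (be e))⁻¹ = Pe e 0 * (Pe f (be e - be f))⁻¹ *
      φ (Multiplicative.ofAdd (be e - be f)) (Pe f 0 * (Pe 3 (be f))⁻¹)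
    rw [map_mul, map_inv, phi_Pe φ hφ, phi_Pe φ hφ]
    have e1 : be e - be f + 0 = be e - be f := by abel
    have e2 : be e - be f + be f = be e := by abel
    rw [e1, e2]
    group
  · rw [SemidirectProduct.mul_right]
    show Multiplicative.ofAdd (be e) =
      Multiplicative.ofAdd (be e - be f) * Multiplicative.ofAdd (be f)
    rw [← ofAdd_add]
    congr 1
    abel

include hφ in
theorem vG_sq {t : Lt × Lt × Lt × Lt} (ht : t ∈ sqs)
    (hth : thv t.1 * (thv t.2.1)⁻¹ * thv t.2.2.1 * (thv t.2.2.2)⁻¹ = 1) :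
    vG φ t.1 * (vG φ t.2.1)⁻¹ * vG φ t.2.2.1 * (vG φ t.2.2.2)⁻¹ = 1 := by
  rw [mul_assoc, vG_div φ hφ, vG_div φ hφ]
  have hb := sq_be t ht
  have hb2 : be t.2.2.1 - be t.2.2.2 = -(be t.1 - be t.2.1) := by
    rw [eq_neg_iff_add_eq_zero, ← hb]
    abel
  apply SemidirectProduct.ext
  · rw [SemidirectProduct.mul_left]
    show Pe t.1 0 * (Pe t.2.1 (be t.1 - be t.2.1))⁻¹ *
      φ (Multiplicative.ofAdd (be t.1 - be t.2.1))
        (Pe t.2.2.1 0 * (Pe t.2.2.2 (be t.2.2.1 - be t.2.2.2))⁻¹) = 1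
    rw [map_mul, map_inv, phi_Pe φ hφ, phi_Pe φ hφ, hb2]
    have e1 : be t.1 - be t.2.1 + 0 = be t.1 - be t.2.1 := by abel
    have e2 : be t.1 - be t.2.1 + -(be t.1 - be t.2.1) = 0 := by abel
    rw [e1, e2, ← mul_assoc]
    exact Pe_sq ht hth
  · rw [SemidirectProduct.mul_right]
    show Multiplicative.ofAdd (be t.1 - be t.2.1) * Multiplicative.ofAdd (be t.2.2.1 - be t.2.2.2) =
      1
    rw [← ofAdd_add, hb2]
    have : be t.1 - be t.2.1 + -(be t.1 - be t.2.1) = 0 := by abel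
    rw [this]
    rfl

include hφ in
theorem vG_rel (hth : ∀ t ∈ sqs, thv t.1 * (thv t.2.1)⁻¹ * thv t.2.2.1 * (thv t.2.2.2)⁻¹ = 1) :
    ∀ r ∈ (↑relF : Set (FreeGroup Lt)), FreeGroup.lift (vG φ) r = 1 := by
  intro r hr
  have hr' : r ∈ relF := hr
  unfold relF at hr'
  rw [Finset.mem_insert, List.mem_toFinset, List.mem_map] at hr'
  rcases hr' with rfl | ⟨t, ht, rfl⟩
  · rw [FreeGroup.lift_apply_of]
    apply SemidirectProduct.ext
    · show Pe 3 0 * (Pe 3 (be 3))⁻¹ = 1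
      rw [be_base, mul_inv_cancel]
    · show Multiplicative.ofAdd (be 3) = 1
      rw [be_base]
      rfl
  · unfold sqRel
    rw [map_mul, map_mul, map_mul, map_inv, map_inv, FreeGroup.lift_apply_of,
      FreeGroup.lift_apply_of, FreeGroup.lift_apply_of, FreeGroup.lift_apply_of]
    exact vG_sq φ hφ ht (hth t ht)

/-- the homomorphism on `G` -/
def PhG (hφ : ∀ (b : Bz) (v : Vx), φ (Multiplicative.ofAdd b) (PresentedGroup.of v) =
    PresentedGroup.of (shV b v))
    (hth : ∀ t ∈ sqs, thv t.1 * (thv t.2.1)⁻¹ * thv t.2.2.1 * (thv t.2.2.2)⁻¹ = 1) :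
    G →* D ⋊[φ] Multiplicative Bz := PresentedGroup.toGroup (vG_rel φ hφ hth)

theorem PhG_gl (hth : ∀ t ∈ sqs, thv t.1 * (thv t.2.1)⁻¹ * thv t.2.2.1 * (thv t.2.2.2)⁻¹ = 1)
    (e : Lt) : PhG φ hφ hth (gl e) = vG φ e := PresentedGroup.toGroup.of _

/-! ### The extension to the trivial HNN extension -/

theorem comm_inl {d : D} (b : Multiplicative Bz) (h : Commute d xs) (hb : φ b xs = xs) :
    Commute (⟨d, b⟩ : D ⋊[φ] Multiplicative Bz) (SemidirectProduct.inl xs) := by
  apply SemidirectProduct.ext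
  · rw [SemidirectProduct.mul_left, SemidirectProduct.mul_left]
    show d * φ b xs = xs * φ 1 d
    rw [hb, map_one, MulAut.one_apply]
    exact h
  · rw [SemidirectProduct.mul_right, SemidirectProduct.mul_right]
    show b * 1 = 1 * b
    rw [mul_one, one_mul]

theorem Pe_comm_xs {e : Lt} (he : e.val < 8) (b : Bz) : Commute (Pe e b) xs := by
  unfold Pe Tp
  have h1 : thv e = 1 := by
    unfold thv
    rw [if_pos he]
  rw [if_pos (by omega), h1, map_one, mul_one, mul_one]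
  exact (comm_vs _).zpow_left _

theorem NsF_lt : ∀ n ∈ NsF, ∃ e : Lt, e.val < 8 ∧ n = FreeGroup.of e := by
  intro n hn
  unfold NsF at hn
  simp only [Finset.mem_insert, Finset.mem_singleton] at hn
  rcases hn with rfl | rfl | rfl | rfl | rfl | rfl | rfl
  · exact ⟨0, by decide, rfl⟩
  · exact ⟨1, by decide, rfl⟩
  · exact ⟨2, by decide, rfl⟩
  · exact ⟨4, by decide, rfl⟩
  · exact ⟨5, by decide, rfl⟩
  · exact ⟨6, by decide, rfl⟩
  · exact ⟨7, by decide, rfl⟩

theorem N_ind {p : G → Prop} (h1 : p 1) (hg : ∀ e : Lt, e.val < 8 → p (gl e))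
    (hm : ∀ x y, p x → p y → p (x * y)) (hi : ∀ x, p x → p x⁻¹) {n : G} (hn : n ∈ N) : p n := by
  have hn' : n ∈ Subgroup.closure (pg relF '' (↑NsF : Set (FreeGroup Lt))) := hn
  induction hn' using Subgroup.closure_induction with
  | mem x hx =>
    obtain ⟨m, hm, rfl⟩ := hx
    obtain ⟨e, he, rfl⟩ := NsF_lt m hm
    exact hg e he
  | one => exact h1
  | mul x y hx0 hy0 hx hy => exact hm x y (hx hx0) (hy hy0)
  | inv x hx0 hx => exact hi x (hx hx0)

include hφ in
theorem PhG_comm (hth : ∀ t ∈ sqs, thv t.1 * (thv t.2.1)⁻¹ * thv t.2.2.1 * (thv t.2.2.2)⁻¹ = 1) :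
    ∀ n ∈ N, Commute (PhG φ hφ hth n) (SemidirectProduct.inl xs) := by
  intro n hn
  refine N_ind (p := fun n => Commute (PhG φ hφ hth n) (SemidirectProduct.inl xs)) ?_ ?_ ?_ ?_ hn
  · show Commute (PhG φ hφ hth 1) _
    rw [map_one]
    exact Commute.one_left _
  · intro e he
    show Commute (PhG φ hφ hth (gl e)) _
    rw [PhG_gl]
    exact comm_inl φ _ ((Pe_comm_xs he 0).mul_left (Pe_comm_xs (by decide) (be e)).inv_left)
      (phi_xs φ hφ (be e))
  · intro x y hx hy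
    show Commute (PhG φ hφ hth (x * y)) _
    rw [map_mul]
    exact hx.mul_left hy
  · intro x hx
    show Commute (PhG φ hφ hth x⁻¹) _
    rw [map_inv]
    exact hx.inv_left

/-- the homomorphism -/
noncomputable def Psi0
    (hth : ∀ t ∈ sqs, thv t.1 * (thv t.2.1)⁻¹ * thv t.2.2.1 * (thv t.2.2.2)⁻¹ = 1) :
    TH N →* D ⋊[φ] Multiplicative Bz :=
  thLift N (PhG φ hφ hth) (SemidirectProduct.inl xs) (PhG_comm φ hφ hth)

end main

/-! ### The map to the states -/

section states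

variable (Θ : G →* TH C1)
  (hΘ : ∀ e : Lt, Θ (gl e) = if e.val < 32 then thB C1 (gl e) else thB C1 (gl e) * thT C1)
  (θ : G →* K4) (hθ : ∀ e : Lt, θ (gl e) = thv e)

theorem G_ind {p : G → Prop} (h1 : p 1) (hg : ∀ e : Lt, p (gl e))
    (hm : ∀ x y, p x → p y → p (x * y)) (hi : ∀ x, p x → p x⁻¹) (g : G) : p g := by
  obtain ⟨w, rfl⟩ := PresentedGroup.mk_surjective _ g
  induction w using FreeGroup.induction_on with
  | C1 => rw [map_one]; exact h1
  | of i => exact hg i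
  | inv_of i _ => rw [map_inv]; exact hi _ (hg i)
  | mul x y hx hy => rw [map_mul]; exact hm _ _ hx hy

include hΘ in
theorem Θ_right (g : G) : (Θ g).right = g := by
  induction g using G_ind with
  | h1 => rw [map_one]; rfl
  | hg e =>
    rw [hΘ]
    split_ifs
    · rfl
    · rw [SemidirectProduct.mul_right]
      show gl e * 1 = gl e
      rw [mul_one]
  | hm x y hx hy => rw [map_mul, SemidirectProduct.mul_right, hx, hy]
  | hi x hx => rw [map_inv, SemidirectProduct.inv_right, hx]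

/-- the map to `G2` -/
def fG : G →* G2 := MonoidHom.prod Θ θ

theorem fG_apply (g : G) : fG Θ θ g = (Θ g, θ g) := rfl

include hΘ in
theorem fG_inj : Function.Injective (fG Θ θ) := by
  intro x y h
  have h1 := congrArg (fun z : G2 => z.1.right) h
  simp only [fG_apply] at h1
  rwa [Θ_right Θ hΘ, Θ_right Θ hΘ] at h1

theorem mem_Z2 {z : G2} : z ∈ Z2 ↔ ∃ g : G, z = (thB C1 g, 1) := by
  unfold Z2
  rw [MonoidHom.mem_range]
  constructor
  · rintro ⟨g, rfl⟩
    exact ⟨g, rfl⟩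
  · rintro ⟨g, rfl⟩
    exact ⟨g, rfl⟩

include hΘ hθ in
theorem fG_N : ∀ n ∈ N, fG Θ θ n ∈ Z2 := by
  intro n hn
  refine N_ind (p := fun n => fG Θ θ n ∈ Z2) ?_ ?_ ?_ ?_ hn
  · show fG Θ θ 1 ∈ Z2
    rw [map_one]
    exact one_mem _
  · intro e he
    show fG Θ θ (gl e) ∈ Z2
    rw [fG_apply, mem_Z2, hΘ, if_pos (by omega), hθ]
    refine ⟨gl e, ?_⟩
    unfold thv
    rw [if_pos he]
  · intro x y hx hy
    show fG Θ θ (x * y) ∈ Z2
    rw [map_mul]
    exact mul_mem hx hy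
  · intro x hx
    show fG Θ θ x⁻¹ ∈ Z2
    rw [map_inv]
    exact inv_mem hx

include hΘ hθ in
theorem fG_N' (h1a : StmF1a) (h1b : StmF1b) (h2 : StmF2) (h3 : ∀ f ∈ F1, θ f = 1 → f = 1)
    (hnf : StmNF) : ∀ g, fG Θ θ g ∈ Z2 → g ∈ N := by
  intro g hg
  rw [fG_apply, mem_Z2] at hg
  obtain ⟨g', hg'⟩ := hg
  have k1 : Θ g = thB C1 g' := congrArg Prod.fst hg'
  have k2 : θ g = 1 := congrArg Prod.snd hg'
  obtain ⟨h, hh, hC⟩ := h2
  have hM : ∀ (p : G → Prop), p 1 → (∀ e : Lt, e.val < 32 → p (gl e)) →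
      (∀ x y, p x → p y → p (x * y)) → (∀ x, p x → p x⁻¹) → ∀ m ∈ M1, p m := by
    intro p p1 pg pm pi m hm
    have hm' : m ∈ Subgroup.closure {g | ∃ e : Lt, e.val < 32 ∧ g = gl e} := hm
    induction hm' using Subgroup.closure_induction with
    | mem x hx =>
      obtain ⟨e, he, rfl⟩ := hx
      exact pg e he
    | one => exact p1
    | mul x y hx0 hy0 hx hy => exact pm x y (hx hx0) (hy hy0)
    | inv x hx0 hx => exact pi x (hx hx0)
  have hF : F1 ≤ M1 := by
    unfold F1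
    rw [Subgroup.closure_le]
    rintro x ⟨c, rfl⟩
    refine Subgroup.subset_closure ⟨hat c, ?_, rfl⟩
    revert c
    decide
  have hYC : ∀ e : Lt, isY e = true → gl e ∈ C1 := fun e he => Subgroup.subset_closure ⟨e, he, rfl⟩
  have hMem : g ∈ M1 := by
    refine hnf G C1 M1 h Θ ?_ ?_ ?_ ?_ ?_ g ?_
    · rw [eq_top_iff]
      intro x _
      induction x using G_ind with
      | h1 => exact one_mem _
      | hg e =>
        by_cases he : e.val < 32
        · exact Subgroup.mem_sup_right (Subgroup.subset_closure ⟨e, he, rfl⟩)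
        · exact Subgroup.mem_sup_left (hYC e (isY_of_ge he))
      | hm x y hx hy => exact mul_mem (hx trivial) (hy trivial)
      | hi x hx => exact inv_mem (hx trivial)
    · apply hM
      · exact map_one h
      · intro e he
        rw [hh, if_pos he]
      · intro x y hx hy
        rw [map_mul, hx, hy, mul_one]
      · intro x hx
        rw [map_inv, hx, inv_one]
    · intro c hc hc1
      exact hF (hC c hc hc1)
    · apply hM
      · rw [map_one, map_one]
      · intro e he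
        rw [hΘ, if_pos he]
      · intro x y hx hy
        rw [map_mul, hx, hy, map_mul]
      · intro x hx
        rw [map_inv, hx, map_inv]
    · intro c hc
      have hc' : c ∈ Subgroup.closure {g | ∃ e : Lt, isY e = true ∧ g = gl e} := hc
      induction hc' using Subgroup.closure_induction with
      | mem x hx =>
        obtain ⟨e, he, rfl⟩ := hx
        rw [hΘ, hh]
        by_cases he2 : e.val < 32
        · rw [if_pos he2, if_pos he2]
          show _ = _ * thT C1 ^ (0 : ℤ)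
          rw [zpow_zero, mul_one]
        · rw [if_neg he2, if_neg he2]
          show _ = _ * thT C1 ^ (1 : ℤ)
          rw [zpow_one]
      | one =>
        rw [map_one, map_one, map_one]
        show _ = 1 * thT C1 ^ (0 : ℤ)
        rw [zpow_zero, mul_one]
      | mul x y hx0 hy0 hx hy =>
        have cy : Commute (thT C1 ^ (Multiplicative.toAdd (h x))) (thB C1 y) :=
          ((thB_comm C1 y hy0).zpow_right _).symm
        rw [map_mul, hx hx0, hy hy0, map_mul, map_mul]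
        show _ = _ * thT C1 ^ (Multiplicative.toAdd (h x) + Multiplicative.toAdd (h y))
        rw [zpow_add]
        calc thB C1 x * thT C1 ^ (Multiplicative.toAdd (h x)) *
              (thB C1 y * thT C1 ^ (Multiplicative.toAdd (h y)))
            = thB C1 x * (thT C1 ^ (Multiplicative.toAdd (h x)) * thB C1 y) *
              thT C1 ^ (Multiplicative.toAdd (h y)) := by group
          _ = _ := by rw [cy.eq]; group
      | inv x hx0 hx =>
        have cx : Commute (thB C1 x) (thT C1 ^ (Multiplicative.toAdd (h x))) :=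
          (thB_comm C1 x hx0).zpow_right _
        rw [map_inv, hx hx0, map_inv, map_inv]
        show _ = _ * thT C1 ^ (-Multiplicative.toAdd (h x))
        rw [zpow_neg, cx.eq, mul_inv_rev]
    · rw [k1]
      rfl
  -- the decomposition of `M1`
  have hdec : ∀ m ∈ M1, ∃ n ∈ N, ∃ f ∈ F1, m = n * f := by
    have hFN : ∀ f ∈ F1, ∀ n, n ∈ N ↔ f * n * f⁻¹ ∈ N := by
      intro f hf
      have hf' : f ∈ Subgroup.closure {g | ∃ c : Fin 4, g = gl (hat c)} := hf
      induction hf' using Subgroup.closure_induction with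
      | mem x hx =>
        obtain ⟨c, rfl⟩ := hx
        exact h1b c
      | one => intro n; simp
      | mul x y hx0 hy0 hx hy =>
        intro n
        rw [hy hy0 n, hx hx0]
        have e : x * (y * n * y⁻¹) * x⁻¹ = x * y * n * (x * y)⁻¹ := by group
        rw [e]
      | inv x hx0 hx =>
        intro n
        rw [hx hx0 (x⁻¹ * n * x⁻¹⁻¹)]
        have e : x * (x⁻¹ * n * x⁻¹⁻¹) * x⁻¹ = n := by group
        rw [e]
    apply hM
    · exact ⟨1, one_mem _, 1, one_mem _, by rw [mul_one]⟩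
    · intro e he
      refine ⟨gl e * (gl (hat (col e)))⁻¹, h1a e he, gl (hat (col e)),
        Subgroup.subset_closure ⟨col e, rfl⟩, by group⟩
    · rintro x y ⟨n, hn, f, hf, rfl⟩ ⟨n', hn', f', hf', rfl⟩
      refine ⟨n * (f * n' * f⁻¹), mul_mem hn ((hFN f hf n').mp hn'), f * f', mul_mem hf hf',
        by group⟩
    · rintro x ⟨n, hn, f, hf, rfl⟩
      refine ⟨f⁻¹ * n⁻¹ * f⁻¹⁻¹, (hFN f⁻¹ (inv_mem hf) n⁻¹).mp (inv_mem hn), f⁻¹, inv_mem hf,
        by group⟩
  obtain ⟨n, hn, f, hf, rfl⟩ := hdec g hMem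
  have h4 : θ n = 1 := by
    have := fG_N Θ hΘ θ hθ n hn
    rw [fG_apply, mem_Z2] at this
    obtain ⟨g'', hg''⟩ := this
    exact congrArg Prod.snd hg''
  rw [map_mul, h4, one_mul] at k2
  rw [h3 f hf k2, mul_one]
  exact hn

end states

/-! ### The main lemma -/

theorem th_ind {H : Type} [Group H] {Z : Subgroup H} {p : TH Z → Prop} (h1 : p 1)
    (hB : ∀ g, p (thB Z g)) (hT : p (thT Z)) (hm : ∀ x y, p x → p y → p (x * y))
    (hi : ∀ x, p x → p x⁻¹) (h : TH Z) : p h := by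
  have e : h = SemidirectProduct.inl h.left * SemidirectProduct.inr h.right :=
    (SemidirectProduct.inl_left_mul_inr_right h).symm
  rw [e]
  refine hm _ _ ?_ (hB h.right)
  generalize h.left = w
  induction w using FreeGroup.induction_on with
  | C1 => rw [map_one]; exact h1
  | of q =>
    induction q using QuotientGroup.induction_on with
    | H g =>
      rw [← thB_conj]
      exact hm _ _ (hm _ _ (hB g) hT) (hi _ (hB g))
  | inv_of q ih => rw [map_inv]; exact hi _ ih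
  | mul x y hx hy => rw [map_mul]; exact hm _ _ hx hy

theorem perm_inv {X : Type} (σ : Equiv.Perm X) {a b : X} (h : σ a = b) : σ⁻¹ b = a := by
  rw [Equiv.Perm.inv_eq_iff_eq]
  exact h.symm

theorem emb (hact : StmAct) (hperm : StmPerm) (h1a : StmF1a) (h1b : StmF1b) (h2 : StmF2)
    (h3 : StmF3) (h4 : StmF4) (hnf : StmNF) : StmEmb := by
  obtain ⟨φ, hφ⟩ := hact
  obtain ⟨π, ρ, p1, p2, p3, p4, r1, r2, r3, r4, r5⟩ := hperm
  obtain ⟨θ, hθ, hinj⟩ := h3
  obtain ⟨Θ, hΘ⟩ := h4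
  have hth : ∀ t ∈ sqs, thv t.1 * (thv t.2.1)⁻¹ * thv t.2.2.1 * (thv t.2.2.2)⁻¹ = 1 :=
    fun t ht => thv_sq_of θ hθ ht
  set Ψ := Psi0 φ hφ hth with hΨ
  have hfN := fG_N Θ hΘ θ hθ
  set Φ := thMap N Z2 (fG Θ θ) hfN with hΦ
  have hΦinj : Function.Injective Φ :=
    thMap_inj N Z2 (fG Θ θ) hfN (fG_N' Θ hΘ θ hθ h1a h1b h2 hinj hnf) (fG_inj Θ hΘ θ)
  -- the path group
  have hK : ∀ k : K4, (∀ (x : Xh) (s : Bool), (ρ (jK k))⁻¹ (x, s) = (x * thB Z2 (1, k), s)) ∧
      π (thB Z2 (1, k)) = 1 := by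
    intro k
    induction k using K4_ind with
    | h1 =>
      have e : thB Z2 ((1 : TH C1), (1 : K4)) = 1 := map_one (thB Z2)
      refine ⟨fun x s => ?_, ?_⟩
      · rw [map_one, map_one, e, mul_one, inv_one]
        rfl
      · rw [e, map_one]
    | hk i =>
      refine ⟨fun x s => ?_, p3 i⟩
      rw [jK_kk]
      exact r4 i x s
    | hm a b ha hb =>
      have e : thB Z2 ((1 : TH C1), a * b) = thB Z2 (1, a) * thB Z2 (1, b) := by
        rw [← map_mul, Prod.mk_mul_mk, one_mul]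
      refine ⟨fun x s => ?_, ?_⟩
      · rw [map_mul, map_mul, mul_inv_rev, Equiv.Perm.mul_apply, ha.1, hb.1, e, mul_assoc]
      · rw [e, map_mul, ha.2, hb.2, mul_one]
    | hi a ha =>
      have e : thB Z2 ((1 : TH C1), a⁻¹) = (thB Z2 (1, a))⁻¹ := by
        rw [← map_inv, Prod.inv_mk, inv_one]
      refine ⟨fun x s => ?_, ?_⟩
      · rw [map_inv, map_inv, inv_inv, e]
        have := ha.1 (x * (thB Z2 (1, a))⁻¹) s
        rw [inv_mul_cancel_right, Equiv.Perm.inv_eq_iff_eq] at this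
        exact this.symm
      · rw [e, map_inv, ha.2, inv_one]
  -- the edges
  have hV1 : ∀ (e : Lt) (x : Xh), (ρ (xv (lab e (Multiplicative.toAdd (π x))) ^ ep e))⁻¹
      (x, true) = (x * iG (gl e), false) := by
    intro e x
    rcases ep_one e with h | h
    · rw [h, zpow_one]
      exact perm_inv _ (r2 e x)
    · rw [h, zpow_neg_one, map_inv, inv_inv]
      exact r1 e x
  have hV2 : ∀ (e : Lt) (x : Xh), (ρ (xv (lab e (Multiplicative.toAdd (π x))) ^ ep e))
      (x * iG (gl e), false) = (x, true) := by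
    intro e x
    rcases ep_one e with h | h
    · rw [h, zpow_one]
      exact r2 e x
    · rw [h, zpow_neg_one, map_inv]
      exact perm_inv _ (r1 e x)
  have hbase : gl 3 = 1 := by
    unfold gl
    rw [PresentedGroup.mk_eq_one_iff]
    apply Subgroup.subset_normalClosure
    show FreeGroup.of 3 ∈ relF
    unfold relF
    exact Finset.mem_insert_self _ _
  -- the path of the base letter
  have hB3 : ∀ (x : Xh), (ρ (Pe 3 (Multiplicative.toAdd (π x)))) (x, false) = (x, true) := by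
    intro x
    have e : Pe 3 (Multiplicative.toAdd (π x)) =
        xv (lab 3 (Multiplicative.toAdd (π x))) ^ ep 3 := by
      unfold Pe Tp
      rw [if_pos (by decide)]
      have : thv 3 = 1 := by
        unfold thv
        rw [if_pos (by decide)]
      rw [this, map_one, mul_one, mul_one]
    rw [e]
    have := hV2 3 x
    rw [hbase, map_one, mul_one] at this
    exact this
  -- the path of a letter
  have hPe : ∀ (e : Lt) (x : Xh), (ρ (Pe e (Multiplicative.toAdd (π x))))⁻¹ (x, true) =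
      (x * Φ (thB N (gl e)), false) ∧ π (Φ (thB N (gl e))) = Multiplicative.ofAdd (be e) := by
    intro e x
    have e0 : Φ (thB N (gl e)) = thB Z2 (Θ (gl e), θ (gl e)) := thMap_B _ _ _ _ _
    have e1 : thB Z2 (Θ (gl e), θ (gl e)) =
        iG (gl e) * (if e.val < 32 then 1 else tauX) * thB Z2 (1, thv e) := by
      rw [hΘ, hθ]
      unfold iG tauX
      simp only [MonoidHom.comp_apply, MonoidHom.inl_apply]
      split_ifs
      · rw [mul_one, ← map_mul, Prod.mk_mul_mk, one_mul, mul_one]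
      · rw [← map_mul, ← map_mul, Prod.mk_mul_mk, Prod.mk_mul_mk, one_mul, one_mul, mul_one]
    have e2 : (ρ (Tp e (Multiplicative.toAdd (π x))))⁻¹ (x * iG (gl e), false) =
        (x * iG (gl e) * (if e.val < 32 then 1 else tauX), false) := by
      unfold Tp
      by_cases he : e.val < 32
      · rw [if_pos he, if_pos he, map_one, inv_one, mul_one]
        rfl
      · rw [if_neg he, if_neg he]
        have h5 := r3 (x * iG (gl e)) false
        rw [map_mul, p1] at h5
        have h6 : (QuotientAddGroup.mk (Multiplicative.toAdd (π x * Multiplicative.ofAdd (be e))) :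
            Bz ⧸ KT) = QuotientAddGroup.mk (Multiplicative.toAdd (π x)) := by
          rw [toAdd_mul, toAdd_ofAdd]
          exact mk_be (isY_of_ge he) _
        rw [h6] at h5
        exact h5
    constructor
    · unfold Pe
      rw [map_mul, map_mul, mul_inv_rev, mul_inv_rev, Equiv.Perm.mul_apply, Equiv.Perm.mul_apply,
        hV1, e2, (hK (thv e)).1, e0, e1]
      simp only [mul_assoc]
    · rw [e0, e1, map_mul, map_mul, p1, (hK (thv e)).2, mul_one]
      split_ifs
      · rw [map_one, mul_one]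
      · rw [p2, mul_one]
  have key : ∀ h : TH N, (∀ x : Xh, (ρ (φ (π x) (Ψ h).left))⁻¹ (x, true) = (x * Φ h, true)) ∧
      (Ψ h).right = π (Φ h) := by
    have kone : (∀ x : Xh, (ρ (φ (π x) (Ψ 1).left))⁻¹ (x, true) = (x * Φ 1, true)) ∧
      (Ψ 1).right = π (Φ 1) := by
      refine ⟨fun x => ?_, ?_⟩
      · rw [map_one, map_one, mul_one, SemidirectProduct.one_left, map_one, map_one, inv_one]
        rfl
      · rw [map_one, map_one, map_one]
        rfl
    have kmul : ∀ a b : TH N,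
        ((∀ x : Xh, (ρ (φ (π x) (Ψ a).left))⁻¹ (x, true) = (x * Φ a, true)) ∧
        (Ψ a).right = π (Φ a)) →
        ((∀ x : Xh, (ρ (φ (π x) (Ψ b).left))⁻¹ (x, true) = (x * Φ b, true)) ∧
        (Ψ b).right = π (Φ b)) →
        ((∀ x : Xh, (ρ (φ (π x) (Ψ (a * b)).left))⁻¹ (x, true) = (x * Φ (a * b), true)) ∧
        (Ψ (a * b)).right = π (Φ (a * b))) := by
      rintro a b ⟨ha1, ha2⟩ ⟨hb1, hb2⟩
      refine ⟨fun x => ?_, ?_⟩
      · rw [map_mul, SemidirectProduct.mul_left, map_mul, map_mul, mul_inv_rev,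
          Equiv.Perm.mul_apply, ha1, ← MulAut.mul_apply, ← map_mul, ha2, ← map_mul, hb1, map_mul,
          mul_assoc]
      · rw [map_mul, SemidirectProduct.mul_right, ha2, hb2, map_mul, map_mul]
    have kinv : ∀ a : TH N,
        ((∀ x : Xh, (ρ (φ (π x) (Ψ a).left))⁻¹ (x, true) = (x * Φ a, true)) ∧
        (Ψ a).right = π (Φ a)) →
        ((∀ x : Xh, (ρ (φ (π x) (Ψ a⁻¹).left))⁻¹ (x, true) = (x * Φ a⁻¹, true)) ∧
        (Ψ a⁻¹).right = π (Φ a⁻¹)) := by
      rintro a ⟨ha1, ha2⟩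
      refine ⟨fun x => ?_, ?_⟩
      · have e : φ (π x) (Ψ a⁻¹).left = (φ (π (x * (Φ a)⁻¹)) (Ψ a).left)⁻¹ := by
          rw [map_inv Ψ, SemidirectProduct.inv_left, ha2, ← MulAut.mul_apply, ← map_mul, map_inv,
            map_mul π, map_inv π]
        have h5 := ha1 (x * (Φ a)⁻¹)
        rw [inv_mul_cancel_right, Equiv.Perm.inv_eq_iff_eq] at h5
        rw [e, map_inv ρ, inv_inv, map_inv Φ]
        exact h5.symm
      · rw [map_inv, SemidirectProduct.inv_right, ha2, map_inv, map_inv]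
    intro h
    refine th_ind (p := fun h => (∀ x : Xh, (ρ (φ (π x) (Ψ h).left))⁻¹ (x, true) =
      (x * Φ h, true)) ∧ (Ψ h).right = π (Φ h)) kone ?_ ?_ kmul kinv h
    · intro g
      refine G_ind (p := fun g => (∀ x : Xh, (ρ (φ (π x) (Ψ (thB N g)).left))⁻¹ (x, true) =
        (x * Φ (thB N g), true)) ∧ (Ψ (thB N g)).right = π (Φ (thB N g))) ?_ ?_ ?_ ?_ g
      · show (∀ x : Xh, (ρ (φ (π x) (Ψ (thB N 1)).left))⁻¹ (x, true) =
          (x * Φ (thB N 1), true)) ∧ (Ψ (thB N 1)).right = π (Φ (thB N 1))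
        rw [map_one (thB N)]
        exact kone
      · intro e
        have e0 : Ψ (thB N (gl e)) = vG φ e := by
          rw [hΨ]
          unfold Psi0
          rw [thLift_B, PhG_gl]
        refine ⟨fun x => ?_, ?_⟩
        · rw [e0]
          show (ρ (φ (π x) (Pe e 0 * (Pe 3 (be e))⁻¹)))⁻¹ (x, true) = _
          have e1 : φ (π x) (Pe e 0 * (Pe 3 (be e))⁻¹) = Pe e (Multiplicative.toAdd (π x)) *
              (Pe 3 (Multiplicative.toAdd (π x) + be e))⁻¹ := by
            have e2 : π x = Multiplicative.ofAdd (Multiplicative.toAdd (π x)) := rfl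
            rw [e2, map_mul, map_inv, phi_Pe φ hφ, phi_Pe φ hφ, add_zero]
            rfl
          rw [e1, map_mul, mul_inv_rev, map_inv, inv_inv, Equiv.Perm.mul_apply, (hPe e x).1]
          have e3 := hB3 (x * Φ (thB N (gl e)))
          rw [map_mul, (hPe e x).2, toAdd_mul, toAdd_ofAdd] at e3
          exact e3
        · rw [e0, (hPe e 1).2]
          rfl
      · intro a b ha hb
        show (∀ x : Xh, (ρ (φ (π x) (Ψ (thB N (a * b))).left))⁻¹ (x, true) =
          (x * Φ (thB N (a * b)), true)) ∧ (Ψ (thB N (a * b))).right = π (Φ (thB N (a * b)))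
        rw [map_mul (thB N)]
        exact kmul _ _ ha hb
      · intro a ha
        show (∀ x : Xh, (ρ (φ (π x) (Ψ (thB N a⁻¹)).left))⁻¹ (x, true) =
          (x * Φ (thB N a⁻¹), true)) ∧ (Ψ (thB N a⁻¹)).right = π (Φ (thB N a⁻¹))
        rw [map_inv (thB N)]
        exact kinv _ ha
    · have e0 : Ψ (thT N) = SemidirectProduct.inl xs := by
        rw [hΨ]
        unfold Psi0
        rw [thLift_T]
      have e1 : Φ (thT N) = sigX := thMap_T _ _ _ _
      refine ⟨fun x => ?_, ?_⟩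
      · show (ρ (φ (π x) (Ψ (thT N)).left))⁻¹ (x, true) = (x * Φ (thT N), true)
        rw [e0, e1, SemidirectProduct.left_inl]
        have e2 : φ (π x) xs = xs := phi_xs φ hφ _
        rw [e2]
        exact r5 x true
      · show (Ψ (thT N)).right = π (Φ (thT N))
        rw [e0, e1, SemidirectProduct.right_inl, p4]
  refine ⟨φ, Ψ, ?_⟩
  rw [injective_iff_map_eq_one]
  intro h hh
  have h5 := (key h).1 1
  rw [hh, SemidirectProduct.one_left, map_one, map_one, inv_one, one_mul] at h5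
  have h6 : Φ h = 1 := (congrArg Prod.fst h5).symm
  exact hΦinj (h6.trans (map_one Φ).symm)

end Pool.Agent.W387.RA
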