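import Pool.Agent.W387.R.Emb

/-!
The action of the right-angled Artin group on the states.
-/

set_option autoImplicit false

namespace Pool.Agent.W387.RA

open Pool.Agent.W387

/-! ### The positions -/

theorem pG_rel : ∀ r ∈ (↑relF : Set (FreeGroup Lt)),
    FreeGroup.lift (fun e => Multiplicative.ofAdd (be e)) r = 1 := by
  intro r hr
  have hr' : r ∈ relF := hr
  unfold relF at hr'
  rw [Finset.mem_insert, List.mem_toFinset, List.mem_map] at hr'
  rcases hr' with rfl | ⟨t, ht, rfl⟩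
  · rw [FreeGroup.lift_apply_of, be_base]
    rfl
  · unfold sqRel
    rw [map_mul, map_mul, map_mul, map_inv, map_inv, FreeGroup.lift_apply_of,
      FreeGroup.lift_apply_of, FreeGroup.lift_apply_of, FreeGroup.lift_apply_of]
    have h := sq_be t ht
    show Multiplicative.ofAdd (be t.1 + -be t.2.1 + be t.2.2.1 + -be t.2.2.2) = 1
    rw [← sub_eq_add_neg, ← sub_eq_add_neg, h]
    rfl

/-- the positions of the elements of `G` -/
def pG : G →* Multiplicative Bz := PresentedGroup.toGroup pG_rel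

theorem pG_gl (e : Lt) : pG (gl e) = Multiplicative.ofAdd (be e) := PresentedGroup.toGroup.of _

/-- the positions of the elements of `TH C1` -/
def p1 : TH C1 →* Multiplicative Bz := thLift C1 pG 1 (fun _ _ => Commute.one_right _)

/-- the positions of the states -/
def pX : Xh →* Multiplicative Bz :=
  thLift Z2 (p1.comp (MonoidHom.fst (TH C1) K4)) 1 (fun _ _ => Commute.one_right _)

theorem pX_gl (e : Lt) : pX (iG (gl e)) = Multiplicative.ofAdd (be e) := by
  unfold iG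
  rw [MonoidHom.comp_apply]
  unfold pX
  rw [thLift_B]
  show p1 (thB C1 (gl e)) = _
  unfold p1
  rw [thLift_B, pG_gl]

theorem pX_tau : pX tauX = 1 := by
  unfold tauX pX
  rw [thLift_B]
  show p1 (thT C1) = _
  unfold p1
  rw [thLift_T]

theorem pX_kk (i : Fin 4) : pX (kkX i) = 1 := by
  unfold kkX pX
  rw [thLift_B]
  show p1 1 = _
  rw [map_one]

theorem pX_sig : pX sigX = 1 := by
  unfold sigX pX
  rw [thLift_T]

/-- the position of a state -/
def Px (x : Xh) : Bz := Multiplicative.toAdd (pX x)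

theorem Px_mul (x y : Xh) : Px (x * y) = Px x + Px y := by
  unfold Px
  rw [map_mul, toAdd_mul]

theorem Px_inv (x : Xh) : Px x⁻¹ = -Px x := by
  unfold Px
  rw [map_inv, toAdd_inv]

theorem Px_gl (e : Lt) : Px (iG (gl e)) = be e := by
  unfold Px
  rw [pX_gl, toAdd_ofAdd]

theorem Px_one {x : Xh} (h : pX x = 1) : Px x = 0 := by
  unfold Px
  rw [h, toAdd_one]

/-! ### Steps -/

/-- the states -/
abbrev St : Type := Xh × Bool

/-- the step along an edge -/
def stp (e : Lt) : St → St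
  | (x, true) => (x * iG (gl e), false)
  | (x, false) => (x * (iG (gl e))⁻¹, true)

/-- the label of an edge at a state -/
def Lb (e : Lt) : St → Vc
  | (x, true) => lab e (Px x)
  | (x, false) => lab e (Px x - be e)

theorem stp_stp (e : Lt) (p : St) : stp e (stp e p) = p := by
  rcases p with ⟨x, _ | _⟩
  · show (x * (iG (gl e))⁻¹ * iG (gl e), false) = _
    rw [inv_mul_cancel_right]
  · show (x * iG (gl e) * (iG (gl e))⁻¹, true) = _
    rw [mul_inv_cancel_right]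

theorem Lb_stp (e : Lt) (p : St) : Lb e (stp e p) = Lb e p := by
  rcases p with ⟨x, _ | _⟩
  · show lab e (Px (x * (iG (gl e))⁻¹)) = lab e (Px x - be e)
    rw [Px_mul, Px_inv, Px_gl, sub_eq_add_neg]
  · show lab e (Px (x * iG (gl e)) - be e) = lab e (Px x)
    rw [Px_mul, Px_gl, add_sub_cancel_right]

theorem Lb_inj (h1 : StmH1) {e f : Lt} {p : St} (h : Lb e p = Lb f p) : e = f := by
  rcases p with ⟨x, _ | _⟩
  · exact h1.2 _ e f h
  · exact h1.1 _ e f h

/-- the conclusion of the square lemma -/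
def Qs (p : St) (e f : Lt) : Prop := ∃ e' f' : Lt, Lb e' (stp f p) = Lb e p ∧
  Lb f' (stp e p) = Lb f p ∧ stp e' (stp f p) = stp f' (stp e p)

theorem Qs_symm {p : St} {e f : Lt} (h : Qs p e f) : Qs p f e := by
  obtain ⟨e', f', h1, h2, h3⟩ := h
  exact ⟨f', e', h2, h1, h3.symm⟩

theorem gl_sq {t : Lt × Lt × Lt × Lt} (ht : t ∈ sqs) :
    gl t.1 * (gl t.2.1)⁻¹ * gl t.2.2.1 * (gl t.2.2.2)⁻¹ = 1 := by
  unfold gl
  rw [← map_inv, ← map_inv, ← map_mul, ← map_mul, ← map_mul]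
  show pg relF (sqRel t) = 1
  rw [PresentedGroup.mk_eq_one_iff]
  apply Subgroup.subset_normalClosure
  show sqRel t ∈ relF
  unfold relF
  rw [Finset.mem_insert]
  right
  rw [List.mem_toFinset]
  exact List.mem_map.mpr ⟨t, ht, rfl⟩

theorem iG_sq {t : Lt × Lt × Lt × Lt} (ht : t ∈ sqs) :
    iG (gl t.1) * (iG (gl t.2.1))⁻¹ * iG (gl t.2.2.1) * (iG (gl t.2.2.2))⁻¹ = 1 := by
  rw [← map_inv, ← map_inv, ← map_mul, ← map_mul, ← map_mul, gl_sq ht, map_one]

theorem stp_T (e : Lt) (x : Xh) : stp e (x, true) = (x * iG (gl e), false) := rfl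

theorem stp_F (e : Lt) (x : Xh) : stp e (x, false) = (x * (iG (gl e))⁻¹, true) := rfl

theorem Lb_T (e : Lt) (x : Xh) : Lb e (x, true) = lab e (Px x) := rfl

theorem Lb_F (e : Lt) (x : Xh) : Lb e (x, false) = lab e (Px x - be e) := rfl

theorem Qs1 {t : Lt × Lt × Lt × Lt} (ht : t ∈ sqs) (x : Xh) : Qs (x, true) t.1 t.2.2.2 := by
  have hb := sq_be t ht
  have hg := iG_sq ht
  have l1 := lab_par1 ht (Px x)
  have l2 := lab_par2 ht (Px x)
  refine ⟨t.2.2.1, t.2.1, ?_, ?_, ?_⟩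
  · rw [stp_T, Lb_F, Lb_T, Px_mul, Px_gl, l1]
    congr 1
    have : be t.2.2.2 - be t.2.2.1 = be t.1 - be t.2.1 := by
      rw [sub_eq_zero] at hb
      rw [← hb]
      abel
    rw [← this]
    abel
  · rw [stp_T, Lb_F, Lb_T, Px_mul, Px_gl, l2]
    congr 1
    abel
  · rw [stp_T, stp_T, stp_F, stp_F]
    congr 1
    rw [mul_assoc, mul_assoc]
    congr 1
    have h2 : iG (gl t.1) * (iG (gl t.2.1))⁻¹ = iG (gl t.2.2.2) * (iG (gl t.2.2.1))⁻¹ := by
      rw [mul_assoc _ (iG (gl t.2.2.1)), mul_eq_one_iff_eq_inv, mul_inv_rev, inv_inv] at hg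
      exact hg
    exact h2.symm

theorem Qs2 {t : Lt × Lt × Lt × Lt} (ht : t ∈ sqs) (x : Xh) : Qs (x, true) t.2.1 t.2.2.1 := by
  have hb := sq_be t ht
  have hg := iG_sq ht
  have l1 := lab_par1 ht (Px x + be t.2.1 - be t.1)
  have l2 := lab_par2 ht (Px x + be t.2.1 - be t.1)
  have hc : Px x + be t.2.1 - be t.1 + (be t.1 - be t.2.1) = Px x := by abel
  rw [hc] at l1 l2
  refine ⟨t.2.2.2, t.1, ?_, ?_, ?_⟩
  · rw [stp_T, Lb_F, Lb_T, Px_mul, Px_gl, ← l2]
    congr 1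
    have : be t.2.2.1 - be t.2.2.2 = be t.2.1 - be t.1 := by
      rw [add_sub_assoc, add_eq_zero_iff_neg_eq] at hb
      rw [← hb]
      abel
    rw [add_sub_assoc, this]
    abel
  · rw [stp_T, Lb_F, Lb_T, Px_mul, Px_gl, ← l1]
  · rw [stp_T, stp_T, stp_F, stp_F]
    congr 1
    rw [mul_assoc, mul_assoc]
    congr 1
    have h2 : iG (gl t.2.2.1) * (iG (gl t.2.2.2))⁻¹ = iG (gl t.2.1) * (iG (gl t.1))⁻¹ := by
      rw [mul_assoc _ (iG (gl t.2.2.1)), mul_eq_one_iff_inv_eq, mul_inv_rev, inv_inv] at hg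
      exact hg.symm
    exact h2

theorem Qs3 {t : Lt × Lt × Lt × Lt} (ht : t ∈ sqs) (x : Xh) : Qs (x, false) t.1 t.2.1 := by
  have hb := sq_be t ht
  have hg := iG_sq ht
  have l1 := lab_par1 ht (Px x - be t.1)
  have l2 := lab_par2 ht (Px x - be t.1)
  have hc : Px x - be t.1 + (be t.1 - be t.2.1) = Px x - be t.2.1 := by abel
  rw [hc] at l1 l2
  refine ⟨t.2.2.1, t.2.2.2, ?_, ?_, ?_⟩
  · rw [stp_F, Lb_T, Lb_F, Px_mul, Px_inv, Px_gl, ← sub_eq_add_neg, ← l1]
  · rw [stp_F, Lb_T, Lb_F, Px_mul, Px_inv, Px_gl, ← sub_eq_add_neg, ← l2]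
  · rw [stp_F, stp_F, stp_T, stp_T]
    congr 1
    rw [mul_assoc, mul_assoc]
    congr 1
    rw [mul_inv_eq_one, mul_assoc] at hg
    rw [← hg]
    group

theorem Qs4 {t : Lt × Lt × Lt × Lt} (ht : t ∈ sqs) (x : Xh) : Qs (x, false) t.2.2.1 t.2.2.2 := by
  have hb := sq_be t ht
  have hg := iG_sq ht
  have l1 := lab_par1 ht (Px x - be t.2.2.2)
  have l2 := lab_par2 ht (Px x - be t.2.2.2)
  have hc : Px x - be t.2.2.2 + (be t.1 - be t.2.1) = Px x - be t.2.2.1 := by
    rw [sub_eq_zero] at hb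
    rw [← hb]
    abel
  rw [hc] at l1 l2
  refine ⟨t.1, t.2.1, ?_, ?_, ?_⟩
  · rw [stp_F, Lb_T, Lb_F, Px_mul, Px_inv, Px_gl, ← sub_eq_add_neg, ← l1]
  · rw [stp_F, Lb_T, Lb_F, Px_mul, Px_inv, Px_gl, ← sub_eq_add_neg, ← l2]
  · rw [stp_F, stp_F, stp_T, stp_T]
    congr 1
    rw [mul_assoc, mul_assoc]
    congr 1
    have h2 : iG (gl t.1) = iG (gl t.2.2.2) * (iG (gl t.2.2.1))⁻¹ * iG (gl t.2.1) := by
      rw [mul_assoc _ (iG (gl t.2.2.1)), mul_eq_one_iff_eq_inv, mul_inv_rev, inv_inv,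
        mul_inv_eq_iff_eq_mul] at hg
      exact hg
    rw [h2]
    group

theorem Qs_of (h2 : StmH2) {p : St} {e f : Lt} (hef : e ≠ f) (h : adjV (Lb e p) (Lb f p)) :
    Qs p e f := by
  rcases p with ⟨x, _ | _⟩
  · have hc := h2.2 (Px x) e f hef h
    unfold cornM at hc
    rw [List.any_eq_true] at hc
    obtain ⟨t, ht, h3⟩ := hc
    simp only [Bool.or_eq_true, Bool.and_eq_true, beq_iff_eq] at h3
    rcases h3 with ((⟨rfl, rfl⟩ | ⟨rfl, rfl⟩) | ⟨rfl, rfl⟩) | ⟨rfl, rfl⟩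
    · exact Qs3 ht x
    · exact Qs_symm (Qs3 ht x)
    · exact Qs4 ht x
    · exact Qs_symm (Qs4 ht x)
  · have hc := h2.1 (Px x) e f hef h
    unfold cornP at hc
    rw [List.any_eq_true] at hc
    obtain ⟨t, ht, h3⟩ := hc
    simp only [Bool.or_eq_true, Bool.and_eq_true, beq_iff_eq] at h3
    rcases h3 with ((⟨rfl, rfl⟩ | ⟨rfl, rfl⟩) | ⟨rfl, rfl⟩) | ⟨rfl, rfl⟩
    · exact Qs1 ht x
    · exact Qs_symm (Qs1 ht x)
    · exact Qs2 ht x
    · exact Qs_symm (Qs2 ht x)

/-! ### Moves -/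

open Classical in
/-- the move of a label -/
noncomputable def mv (v : Vc) (p : St) : St :=
  if h : ∃ e : Lt, Lb e p = v then stp h.choose p else p

theorem mv_of (h1 : StmH1) {v : Vc} {p : St} {e : Lt} (h : Lb e p = v) : mv v p = stp e p := by
  have hx : ∃ e : Lt, Lb e p = v := ⟨e, h⟩
  unfold mv
  rw [dif_pos hx]
  congr 1
  exact Lb_inj h1 (hx.choose_spec.trans h.symm)

theorem mv_not {v : Vc} {p : St} (h : ¬ ∃ e : Lt, Lb e p = v) : mv v p = p := by
  unfold mv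
  rw [dif_neg h]

theorem mv_mv (h1 : StmH1) (v : Vc) (p : St) : mv v (mv v p) = p := by
  by_cases h : ∃ e : Lt, Lb e p = v
  · obtain ⟨e, he⟩ := h
    rw [mv_of h1 he, mv_of h1 (e := e) (by rw [Lb_stp, he]), stp_stp]
  · rw [mv_not h, mv_not h]

theorem mv_comm (h1 : StmH1) (h2 : StmH2) {v w : Vc} (hvw : v ≠ w) (ha : adjV v w) (p : St) :
    mv v (mv w p) = mv w (mv v p) := by
  have key : ∀ {p : St} {e f : Lt}, Lb e p = v → Lb f p = w → Qs p e f := by
    intro p e f he hf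
    refine Qs_of h2 ?_ ?_
    · rintro rfl
      exact hvw (he.symm.trans hf)
    · rw [he, hf]
      exact ha
  by_cases hv : ∃ e : Lt, Lb e p = v
  · obtain ⟨e, he⟩ := hv
    by_cases hw : ∃ f : Lt, Lb f p = w
    · obtain ⟨f, hf⟩ := hw
      obtain ⟨e', f', k1, k2, k3⟩ := key he hf
      rw [mv_of h1 he, mv_of h1 hf, mv_of h1 (k1.trans he), mv_of h1 (k2.trans hf), k3]
    · rw [mv_not hw, mv_of h1 he, mv_not]
      rintro ⟨f, hf⟩
      obtain ⟨e', f', k1, k2, k3⟩ := key ((Lb_stp e p).trans he) hf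
      rw [stp_stp] at k2
      exact hw ⟨f', k2.trans hf⟩
  · by_cases hw : ∃ f : Lt, Lb f p = w
    · obtain ⟨f, hf⟩ := hw
      rw [mv_not hv, mv_of h1 hf, mv_not]
      rintro ⟨e, he⟩
      obtain ⟨e', f', k1, k2, k3⟩ := key he ((Lb_stp f p).trans hf)
      rw [stp_stp] at k1
      exact hv ⟨e', k1.trans he⟩
    · rw [mv_not hw, mv_not hv, mv_not hw]

/-- right multiplications -/
def rm (g : Xh) (p : St) : St := (p.1 * g⁻¹, p.2)

theorem Lb_rm {g : Xh} (hg : pX g = 1) (e : Lt) (p : St) : Lb e (rm g p) = Lb e p := by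
  have h0 : Px g⁻¹ = 0 := by rw [Px_inv, Px_one hg, neg_zero]
  rcases p with ⟨x, _ | _⟩
  · show lab e (Px (x * g⁻¹) - be e) = lab e (Px x - be e)
    rw [Px_mul, h0, add_zero]
  · show lab e (Px (x * g⁻¹)) = lab e (Px x)
    rw [Px_mul, h0, add_zero]

theorem stp_rm {g : Xh} {e : Lt} (hc : Commute (iG (gl e)) g) (p : St) :
    stp e (rm g p) = rm g (stp e p) := by
  rcases p with ⟨x, _ | _⟩
  · show (x * g⁻¹ * (iG (gl e))⁻¹, true) = (x * (iG (gl e))⁻¹ * g⁻¹, true)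
    rw [mul_assoc, mul_assoc, hc.inv_inv.eq]
  · show (x * g⁻¹ * iG (gl e), false) = (x * iG (gl e) * g⁻¹, false)
    rw [mul_assoc, mul_assoc, hc.inv_right.eq]

theorem mv_rm (h1 : StmH1) {g : Xh} (hg : pX g = 1) (hc : ∀ e : Lt, Commute (iG (gl e)) g)
    (v : Vc) (p : St) : mv v (rm g p) = rm g (mv v p) := by
  by_cases hv : ∃ e : Lt, Lb e p = v
  · obtain ⟨e, he⟩ := hv
    rw [mv_of h1 he, mv_of h1 ((Lb_rm hg e p).trans he), stp_rm (hc e)]
  · rw [mv_not hv, mv_not]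
    rintro ⟨e, he⟩
    exact hv ⟨e, (Lb_rm hg e p).symm.trans he⟩

/-- the class of the position -/
def cl (p : St) : Bz ⧸ KT := QuotientAddGroup.mk (Px p.1)

open Classical in
/-- the move of a class of positions -/
noncomputable def mt (c : Bz ⧸ KT) (p : St) : St := if cl p = c then rm tauX p else p

open Classical in
/-- the inverse move of a class of positions -/
noncomputable def mt' (c : Bz ⧸ KT) (p : St) : St := if cl p = c then rm tauX⁻¹ p else p

theorem cl_rm {g : Xh} (hg : pX g = 1) (p : St) : cl (rm g p) = cl p := by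
  have h0 : Px g⁻¹ = 0 := by rw [Px_inv, Px_one hg, neg_zero]
  unfold cl rm
  rw [Px_mul, h0, add_zero]

theorem rm_rm_inv (g : Xh) (p : St) : rm g (rm g⁻¹ p) = p := by
  show (p.1 * g⁻¹⁻¹ * g⁻¹, p.2) = p
  rw [inv_inv, mul_inv_cancel_right]

theorem rm_inv_rm (g : Xh) (p : St) : rm g⁻¹ (rm g p) = p := by
  show (p.1 * g⁻¹ * g⁻¹⁻¹, p.2) = p
  rw [inv_inv, inv_mul_cancel_right]

theorem rm_comm {g k : Xh} (h : Commute g k) (p : St) : rm g (rm k p) = rm k (rm g p) := by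
  show (p.1 * k⁻¹ * g⁻¹, p.2) = (p.1 * g⁻¹ * k⁻¹, p.2)
  rw [mul_assoc, mul_assoc, h.inv_inv.eq]

theorem pX_tau' : pX tauX⁻¹ = 1 := by rw [map_inv, pX_tau, inv_one]

theorem mt_mt' (c : Bz ⧸ KT) (p : St) : mt c (mt' c p) = p := by
  unfold mt mt'
  by_cases h : cl p = c
  · rw [if_pos h, if_pos ((cl_rm pX_tau' p).trans h), rm_rm_inv]
  · rw [if_neg h, if_neg h]

theorem mt'_mt (c : Bz ⧸ KT) (p : St) : mt' c (mt c p) = p := by
  unfold mt mt'
  by_cases h : cl p = c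
  · rw [if_pos h, if_pos ((cl_rm pX_tau p).trans h), rm_inv_rm]
  · rw [if_neg h, if_neg h]

theorem cl_stp {e : Lt} (he : isY e = true) (p : St) : cl (stp e p) = cl p := by
  rcases p with ⟨x, _ | _⟩
  · show (QuotientAddGroup.mk (Px (x * (iG (gl e))⁻¹)) : Bz ⧸ KT) = QuotientAddGroup.mk (Px x)
    rw [Px_mul, Px_inv, Px_gl]
    have h := mk_be he (Px x + -be e)
    rw [← h]
    congr 1
    abel
  · show (QuotientAddGroup.mk (Px (x * iG (gl e))) : Bz ⧸ KT) = QuotientAddGroup.mk (Px x)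
    rw [Px_mul, Px_gl]
    exact mk_be he _

theorem isY_of (h3 : StmH3) {e : Lt} {p : St} (h : adjT (Lb e p) (cl p)) : isY e = true := by
  rcases p with ⟨x, _ | _⟩
  · exact h3.2 _ e h
  · exact h3.1 _ e h

theorem iG_tau {e : Lt} (he : isY e = true) : Commute (iG (gl e)) tauX := by
  unfold iG tauX
  rw [MonoidHom.comp_apply, MonoidHom.comp_apply]
  have h : Commute (thB C1 (gl e)) (thT C1) :=
    thB_comm C1 _ (Subgroup.subset_closure ⟨e, he, rfl⟩)
  have h2 : Commute ((MonoidHom.inl (TH C1) K4) (thB C1 (gl e))) ((MonoidHom.inl (TH C1) K4)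
      (thT C1)) := h.map _
  exact h2.map (thB Z2)

theorem mv_mt (h1 : StmH1) (h3 : StmH3) {v : Vc} {c : Bz ⧸ KT} (ha : adjT v c) (p : St) :
    mv v (mt c p) = mt c (mv v p) := by
  have L' : ∀ e, Lb e (rm tauX p) = Lb e p := fun e => Lb_rm pX_tau e p
  by_cases hc : cl p = c
  · have hm : mt c p = rm tauX p := by
      unfold mt
      rw [if_pos hc]
    rw [hm]
    by_cases hv : ∃ e : Lt, Lb e p = v
    · obtain ⟨e, he⟩ := hv
      have hY : isY e = true := isY_of h3 (p := p) (by rw [he, hc]; exact ha)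
      rw [mv_of h1 he, mv_of h1 ((L' e).trans he), stp_rm (iG_tau hY)]
      unfold mt
      rw [if_pos ((cl_stp hY p).trans hc)]
    · rw [mv_not hv, mv_not, hm]
      rintro ⟨e, he⟩
      exact hv ⟨e, (L' e).symm.trans he⟩
  · have hm : mt c p = p := by
      unfold mt
      rw [if_neg hc]
    rw [hm]
    by_cases hv : ∃ e : Lt, Lb e p = v
    · obtain ⟨e, he⟩ := hv
      rw [mv_of h1 he]
      unfold mt
      rw [if_neg]
      intro h4
      have hY : isY e = true := isY_of h3 (p := stp e p) (by rw [Lb_stp, he, h4]; exact ha)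
      exact hc ((cl_stp hY p).symm.trans h4)
    · rw [mv_not hv, hm]

theorem mt_rm {g : Xh} (hg : pX g = 1) (hc : Commute tauX g) (c : Bz ⧸ KT) (p : St) :
    mt c (rm g p) = rm g (mt c p) := by
  unfold mt
  rw [cl_rm hg]
  by_cases h : cl p = c
  · rw [if_pos h, if_pos h, rm_comm hc]
  · rw [if_neg h, if_neg h]

/-! ### Permutations -/

/-- the permutation of a label -/
noncomputable def pmv (h1 : StmH1) (v : Vc) : Equiv.Perm St := ⟨mv v, mv v, mv_mv h1 v, mv_mv h1 v⟩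

/-- the permutation of a class of positions -/
noncomputable def pmt (c : Bz ⧸ KT) : Equiv.Perm St := ⟨mt c, mt' c, mt'_mt c, mt_mt' c⟩

/-- the permutation of a right multiplication -/
def prm (g : Xh) : Equiv.Perm St := ⟨rm g, rm g⁻¹, rm_inv_rm g, rm_rm_inv g⟩

theorem pmv_apply (h1 : StmH1) (v : Vc) (p : St) : pmv h1 v p = mv v p := by
  unfold pmv
  rw [Equiv.coe_fn_mk]

theorem pmt_apply (c : Bz ⧸ KT) (p : St) : pmt c p = mt c p := by
  unfold pmt
  rw [Equiv.coe_fn_mk]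

theorem pmt_inv (c : Bz ⧸ KT) (p : St) : (pmt c)⁻¹ p = mt' c p := by
  rw [Equiv.Perm.inv_eq_iff_eq, pmt_apply, mt_mt']

theorem prm_apply (g : Xh) (p : St) : prm g p = rm g p := by
  unfold prm
  rw [Equiv.coe_fn_mk]

theorem prm_inv (g : Xh) (p : St) : (prm g)⁻¹ p = rm g⁻¹ p := by
  rw [Equiv.Perm.inv_eq_iff_eq, prm_apply, rm_rm_inv]

/-- the permutation of a vertex -/
noncomputable def pv (h1 : StmH1) : Vx → Equiv.Perm St
  | Sum.inl v => pmv h1 v
  | Sum.inr (Sum.inl c) => pmt c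
  | Sum.inr (Sum.inr (Sum.inl i)) => prm (kkX i)
  | Sum.inr (Sum.inr (Sum.inr _)) => prm sigX

theorem iG_kk (g : G) (i : Fin 4) : Commute (iG g) (kkX i) := by
  unfold iG kkX
  rw [MonoidHom.comp_apply, MonoidHom.comp_apply]
  have h : Commute ((MonoidHom.inl (TH C1) K4) (thB C1 g)) ((1 : TH C1), kk i) := by
    show ((thB C1 g, 1) : TH C1 × K4) * (1, kk i) = (1, kk i) * (thB C1 g, 1)
    rw [Prod.mk_mul_mk, Prod.mk_mul_mk, one_mul, one_mul, mul_one, mul_one]
  exact h.map (thB Z2)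

theorem tau_kk (i : Fin 4) : Commute tauX (kkX i) := by
  unfold tauX kkX
  have h : Commute ((thT C1, 1) : TH C1 × K4) ((1 : TH C1), kk i) := by
    show ((thT C1, 1) : TH C1 × K4) * (1, kk i) = (1, kk i) * (thT C1, 1)
    rw [Prod.mk_mul_mk, Prod.mk_mul_mk, one_mul, one_mul, mul_one, mul_one]
  exact h.map (thB Z2)

theorem iG_sig (g : G) : Commute (iG g) sigX := by
  unfold iG sigX
  rw [MonoidHom.comp_apply, MonoidHom.comp_apply]
  exact thB_comm Z2 _ ⟨g, rfl⟩

theorem kk_kk {i j : Fin 4} (h : i.val + 1 = j.val) : Commute (kkX i) (kkX j) := by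
  have h1 : Commute (kk i) (kk j) := by
    apply comm_of_adj
    rw [P4, SimpleGraph.fromRel_adj]
    refine ⟨?_, Or.inl h⟩
    rintro rfl
    omega
  have h2 : Commute (((1 : TH C1), kk i) : TH C1 × K4) ((1 : TH C1), kk j) := by
    show (((1 : TH C1), kk i) : TH C1 × K4) * (1, kk j) = (1, kk j) * (1, kk i)
    rw [Prod.mk_mul_mk, Prod.mk_mul_mk, h1.eq]
  exact h2.map (thB Z2)

theorem pv_comm (h1 : StmH1) (h2 : StmH2) (h3 : StmH3) {v w : Vx} (hvw : v ≠ w) (h : adjR v w) :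
    Commute (pv h1 v) (pv h1 w) := by
  have ext' : ∀ σ τ : Equiv.Perm St, (∀ p, σ (τ p) = τ (σ p)) → Commute σ τ :=
    fun σ τ h => Equiv.ext h
  rcases v with v | c | i | u
  · rcases w with w | c' | j | u'
    · have h' : adjV v w := h
      have hne : v ≠ w := fun e => hvw (congrArg Sum.inl e)
      refine ext' (pmv h1 v) (pmv h1 w) (fun p => ?_)
      rw [pmv_apply, pmv_apply, pmv_apply, pmv_apply]
      exact mv_comm h1 h2 hne h' p
    · have h' : adjT v c' := h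
      refine ext' (pmv h1 v) (pmt c') (fun p => ?_)
      rw [pmv_apply, pmv_apply, pmt_apply, pmt_apply]
      exact mv_mt h1 h3 h' p
    · refine ext' (pmv h1 v) (prm (kkX j)) (fun p => ?_)
      rw [pmv_apply, pmv_apply, prm_apply, prm_apply]
      exact mv_rm h1 (pX_kk j) (fun e => iG_kk _ j) v p
    · refine ext' (pmv h1 v) (prm sigX) (fun p => ?_)
      rw [pmv_apply, pmv_apply, prm_apply, prm_apply]
      exact mv_rm h1 pX_sig (fun e => iG_sig _) v p
  · rcases w with w | c' | j | u'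
    · exact h.elim
    · exact h.elim
    · refine ext' (pmt c) (prm (kkX j)) (fun p => ?_)
      rw [pmt_apply, pmt_apply, prm_apply, prm_apply]
      exact mt_rm (pX_kk j) (tau_kk j) c p
    · exact h.elim
  · rcases w with w | c' | j | u'
    · exact h.elim
    · exact h.elim
    · have h' : i.val + 1 = j.val := h
      refine ext' (prm (kkX i)) (prm (kkX j)) (fun p => ?_)
      rw [prm_apply, prm_apply, prm_apply, prm_apply]
      exact rm_comm (kk_kk h') p
    · exact h.elim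
  · rcases w with w | c' | j | u'
    · exact h.elim
    · exact h.elim
    · exact h.elim
    · exact h.elim

theorem pv_rel (h1 : StmH1) (h2 : StmH2) (h3 : StmH3) :
    ∀ r ∈ raagRels Gx, FreeGroup.lift (pv h1) r = 1 := by
  rintro r ⟨a, b, hab, rfl⟩
  rw [map_mul, map_mul, map_mul, map_inv, map_inv, FreeGroup.lift_apply_of, FreeGroup.lift_apply_of]
  have hc : Commute (pv h1 a) (pv h1 b) := by
    have h := (SimpleGraph.fromRel_adj adjR a b).mp hab
    rcases h.2 with h' | h'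
    · exact pv_comm h1 h2 h3 h.1 h'
    · exact (pv_comm h1 h2 h3 (Ne.symm h.1) h').symm
  rw [hc.eq]
  group

/-- the action -/
theorem perm (h1 : StmH1) (h2 : StmH2) (h3 : StmH3) : StmPerm := by
  have hof : ∀ v : Vx, (PresentedGroup.toGroup (pv_rel h1 h2 h3) : D →* Equiv.Perm St)
      (PresentedGroup.of v) = pv h1 v := fun v => PresentedGroup.toGroup.of _
  refine ⟨pX, PresentedGroup.toGroup (pv_rel h1 h2 h3), pX_gl, pX_tau, pX_kk, pX_sig, ?_, ?_, ?_,
    ?_, ?_⟩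
  · intro e x
    rw [hof]
    show pmv h1 _ _ = _
    rw [pmv_apply]
    exact mv_of h1 (p := (x, true)) (e := e) rfl
  · intro e x
    rw [hof]
    have h4 := mv_of h1 (v := lab e (Px x)) (p := (x * iG (gl e), false)) (e := e) (by
      rw [Lb_F, Px_mul, Px_gl, add_sub_cancel_right])
    rw [stp_F, mul_inv_cancel_right] at h4
    show pmv h1 _ _ = _
    rw [pmv_apply]
    exact h4
  · intro x s
    rw [hof]
    show (pmt (cl (x, s)))⁻¹ (x, s) = _
    rw [pmt_inv]
    unfold mt'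
    rw [if_pos rfl]
    show (x * tauX⁻¹⁻¹, s) = _
    rw [inv_inv]
  · intro i x s
    rw [hof]
    show (prm (kkX i))⁻¹ (x, s) = _
    rw [prm_inv]
    show (x * (kkX i)⁻¹⁻¹, s) = _
    rw [inv_inv]
  · intro x s
    rw [hof]
    show (prm sigX)⁻¹ (x, s) = _
    rw [prm_inv]
    show (x * sigX⁻¹⁻¹, s) = _
    rw [inv_inv]

end Pool.Agent.W387.RA
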